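import Pool.Agent.Y913.Zm.Ct

/-!
Triples all of whose members are products of powers of few small integers: all heights.
-/

set_option autoImplicit false

namespace Pool.Agent.Y913.Zm

open Finset Filter Pool.Agent.Y913 Pool.Agent.Y913.Nb Pool.Agent.Y913.Vm Pool.Agent.Y913.Wm

/-- the height bound -/
lemma nb_height (n : ℕ) : ∃ H : ℕ, ∀ Y : ℝ, 2 ≤ Y → ∀ a b : ℕ, 0 < a → 0 < b →
    Nat.Coprime a b → NB n Y a → NB n Y b → NB n Y (a + b) →
    Real.log ((a + b : ℕ) : ℝ) ≤ Y ^ H := by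
  obtain ⟨C4, κ4, hC4, hht⟩ := padic_height4 n (1 / (n + 1)) (by positivity)
  obtain ⟨t, ht⟩ := exists_nat_ge (C4 * 3 ^ κ4 + 1)
  refine ⟨t + κ4, ?_⟩
  intro Y hY a b ha hb hab hna hnb hnc
  obtain ⟨P, e, hP, hc'⟩ := hnc
  have hY0 : 0 < Y := by linarith
  have hY1 : 1 ≤ Y := by linarith
  have hlY : 0 ≤ Real.log Y := Real.log_nonneg hY1
  have hMpos : (0 : ℝ) < ((a + b : ℕ) : ℝ) := by exact_mod_cast (by omega : 0 < a + b)
  have hlc : 0 < Real.log ((a + b : ℕ) : ℝ) :=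
    Real.log_pos (by exact_mod_cast (by omega : 1 < a + b))
  -- a heavy base
  obtain ⟨r, hr⟩ : ∃ r, Real.log ((a + b : ℕ) : ℝ) ≤ (n + 1) * (e r * Real.log (P r)) := by
    by_contra hcon
    push Not at hcon
    have h1 : Real.log ((a + b : ℕ) : ℝ) = ∑ r, (e r : ℝ) * Real.log (P r) := by
      rw [hc']
      push_cast
      rw [Real.log_prod (fun r _ => pow_ne_zero _ (by
        have := (hP r).1
        positivity))]
      apply Finset.sum_congr rfl
      intro r _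
      rw [Real.log_pow]
    have h2 : ∑ r, (e r : ℝ) * Real.log (P r) ≤
        ∑ _r : Fin n, Real.log ((a + b : ℕ) : ℝ) / (n + 1) := by
      apply Finset.sum_le_sum
      intro r _
      rw [le_div_iff₀ (by positivity)]
      have := hcon r
      linarith
    rw [Finset.sum_const, Finset.card_univ, Fintype.card_fin, nsmul_eq_mul, ← h1] at h2
    have h3 : (n : ℝ) * (Real.log ((a + b : ℕ) : ℝ) / (n + 1)) =
        Real.log ((a + b : ℕ) : ℝ) - Real.log ((a + b : ℕ) : ℝ) / (n + 1) := by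
      field_simp
      ring
    rw [h3] at h2
    have h4 : 0 < Real.log ((a + b : ℕ) : ℝ) / (n + 1) := by positivity
    linarith
  have hPr1 : P r ≠ 1 := by
    intro h0
    rw [h0] at hr
    simp only [Nat.cast_one, Real.log_one, mul_zero] at hr
    linarith
  obtain ⟨p, hp, hpr⟩ := Nat.exists_prime_and_dvd hPr1
  have hpY : (p : ℝ) ≤ Y :=
    le_trans (by exact_mod_cast Nat.le_of_dvd (hP r).1 hpr) (hP r).2
  obtain ⟨k, hk⟩ : ∃ k, k = e r := ⟨_, rfl⟩
  have hpc : p ^ k ∣ a + b := by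
    rw [hc', hk]
    exact (pow_dvd_pow_of_dvd hpr _).trans
      (Finset.dvd_prod_of_mem (fun r => P r ^ e r) (Finset.mem_univ r))
  have hdv : ((p ^ k : ℕ) : ℤ) ∣ (a : ℤ) + b := by
    have : ((p ^ k : ℕ) : ℤ) ∣ ((a + b : ℕ) : ℤ) := by exact_mod_cast hpc
    push_cast at this ⊢
    exact this
  have hlP : Real.log (P r) ≤ Real.log Y :=
    Real.log_le_log (by have := (hP r).1; positivity) (hP r).2
  have hkl : ∀ t : ℝ, t ≤ Real.log ((a + b : ℕ) : ℝ) →
      1 / (n + 1) * t ≤ k * ((p : ℝ) + (1 + Real.log Y)) := by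
    intro t ht
    have h9 : (0 : ℝ) ≤ (k : ℝ) * (p + 1) := by positivity
    have h10 : 1 / ((n : ℝ) + 1) * t ≤ 1 / (n + 1) * Real.log ((a + b : ℕ) : ℝ) :=
      mul_le_mul_of_nonneg_left ht (by positivity)
    have h11 : 1 / ((n : ℝ) + 1) * Real.log ((a + b : ℕ) : ℝ) ≤ k * Real.log Y := by
      rw [one_div, inv_mul_eq_div, div_le_iff₀ (by positivity)]
      calc Real.log ((a + b : ℕ) : ℝ) ≤ (n + 1) * (e r * Real.log (P r)) := hr
        _ ≤ (n + 1) * (e r * Real.log Y) := by gcongr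
        _ = k * Real.log Y * (n + 1) := by rw [hk]; ring
    linarith
  have hfinish : ∀ s : ℝ, s ≤ C4 * ((p : ℝ) + (1 + Real.log Y)) ^ κ4 →
      Real.log ((a + b : ℕ) : ℝ) ≤ Real.log 2 + s →
      Real.log ((a + b : ℕ) : ℝ) ≤ Y ^ (t + κ4) := by
    intro s hs1 hs2
    have h1 : (p : ℝ) + (1 + Real.log Y) ≤ 3 * Y := by
      have := Real.log_le_sub_one_of_pos hY0
      linarith
    have h2 : C4 * ((p : ℝ) + (1 + Real.log Y)) ^ κ4 ≤ C4 * (3 * Y) ^ κ4 := by gcongr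
    have h3 : Real.log 2 ≤ 1 := by
      have := Real.log_two_lt_d9
      linarith
    have h4 : (1 : ℝ) ≤ Y ^ κ4 := one_le_pow₀ hY1
    calc Real.log ((a + b : ℕ) : ℝ) ≤ 1 + C4 * (3 * Y) ^ κ4 := by linarith
      _ ≤ (C4 * 3 ^ κ4 + 1) * Y ^ κ4 := by
          rw [mul_pow]
          nlinarith
      _ ≤ Y ^ t * Y ^ κ4 := by
          apply mul_le_mul_of_nonneg_right _ (by positivity)
          calc C4 * 3 ^ κ4 + 1 ≤ t := ht
            _ ≤ 2 ^ t := by exact_mod_cast (Nat.lt_two_pow_self (n := t)).le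
            _ ≤ Y ^ t := pow_le_pow_left₀ (by norm_num) hY _
      _ = Y ^ (t + κ4) := (pow_add _ _ _).symm
  have hnn : 0 ≤ C4 * ((p : ℝ) + (1 + Real.log Y)) ^ κ4 := by positivity
  rcases lt_trichotomy a b with hlt | heq | hgt
  · apply hfinish (Real.log b)
    · apply hht Y hY1 p k hp (-1) (Or.inr rfl) (a, b) ha hlt hab hna hnb
      · simp only
        have e1 : (b : ℤ) - -1 * (a : ℤ) = (a : ℤ) + b := by ring
        rw [e1]
        exact hdv
      · apply hkl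
        apply Real.log_le_log (by exact_mod_cast hb)
        push_cast
        have : (0 : ℝ) ≤ (a : ℝ) := Nat.cast_nonneg _
        linarith
    · rw [← Real.log_mul (by norm_num) (by exact_mod_cast hb.ne')]
      apply Real.log_le_log hMpos
      push_cast
      have : (a : ℝ) < b := by exact_mod_cast hlt
      linarith
  · rw [heq] at hab
    have h9 : b = 1 := (Nat.coprime_self _).mp hab
    apply hfinish 0 hnn
    rw [heq, h9]
    norm_num
  · apply hfinish (Real.log a)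
    · apply hht Y hY1 p k hp (-1) (Or.inr rfl) (b, a) hb hgt hab.symm hnb hna
      · simp only
        have e1 : (a : ℤ) - -1 * (b : ℤ) = (a : ℤ) + b := by ring
        rw [e1]
        exact hdv
      · apply hkl
        apply Real.log_le_log (by exact_mod_cast ha)
        push_cast
        have : (0 : ℝ) ≤ (b : ℝ) := Nat.cast_nonneg _
        linarith
    · rw [← Real.log_mul (by norm_num) (by exact_mod_cast ha.ne')]
      apply Real.log_le_log hMpos
      push_cast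
      have : (b : ℝ) < a := by exact_mod_cast hgt
      linarith

/-- the triples counted: all members are products of powers of `n` integers `≤ Y` -/
def Nt (n : ℕ) (K Y : ℝ) (q : ℕ × ℕ) : Prop :=
  0 < q.1 ∧ 0 < q.2 ∧ Nat.Coprime q.1 q.2 ∧ NB n Y q.1 ∧ NB n Y q.2 ∧ NB n Y (q.1 + q.2) ∧
    Y ^ K ≤ ((q.1 + q.2 : ℕ) : ℝ)

lemma prod3 {n : ℕ} (x : Fin 3 → Fin n → ℕ) (hx : ∀ j i, 0 < x j i) (a : Fin 3 → Fin n → ℕ)
    (j : Fin 2) :
    ((∏ i, x j.castSucc i ^ a j.castSucc i : ℕ) : ℚ) / ((∏ i, x 2 i ^ a 2 i : ℕ) : ℚ) =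
      ∏ s : Fin 3 × Fin n, ((x s.1 s.2 : ℕ) : ℚ) ^
        ((if s.1 = j.castSucc then (a s.1 s.2 : ℤ) else 0) -
          (if s.1 = 2 then (a s.1 s.2 : ℤ) else 0)) := by
  have hne : ∀ s : Fin 3 × Fin n, ((x s.1 s.2 : ℕ) : ℚ) ≠ 0 :=
    fun s => Nat.cast_ne_zero.mpr (hx s.1 s.2).ne'
  have h1 : ∀ t : Fin 3, ((∏ i, x t i ^ a t i : ℕ) : ℚ) =
      ∏ s : Fin 3 × Fin n, ((x s.1 s.2 : ℕ) : ℚ) ^ (if s.1 = t then (a s.1 s.2 : ℤ) else 0) := by
    intro t
    rw [Fintype.prod_prod_type]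
    rw [Finset.prod_eq_single t]
    · push_cast
      apply Finset.prod_congr rfl
      intro i _
      simp
    · intro b _ hb
      apply Finset.prod_eq_one
      intro i _
      simp only
      rw [if_neg hb, zpow_zero]
    · intro h
      exact absurd (Finset.mem_univ _) h
  rw [h1 j.castSucc, h1 2, ← Finset.prod_div_distrib]
  apply Finset.prod_congr rfl
  intro s _
  rw [zpow_sub₀ (hne s)]

/-- **the count of triples of all heights** -/
theorem nt_count (n : ℕ) (ε : ℝ) (hε : 0 < ε) : ∃ K C : ℝ, 0 < K ∧ 0 < C ∧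
    ∀ Y : ℝ, 1 ≤ Y → ∀ Q : Finset (ℕ × ℕ), (∀ q ∈ Q, Nt n K Y q) →
      (Q.card : ℝ) ≤ C * Y ^ ε := by
  classical
  obtain ⟨H, hH⟩ := nb_height n
  obtain ⟨K1, hev⟩ := rb_count (Fin 3 × Fin n) (H + 1) ε hε
  obtain ⟨Z1, hZ1⟩ := eventually_atTop.mp hev
  obtain ⟨Z0, hZ0⟩ : ∃ Z0 : ℝ, Z0 = max Z1 4 := ⟨_, rfl⟩
  have hZ04 : 4 ≤ Z0 := by rw [hZ0]; exact le_max_right _ _
  have hZ01 : Z1 ≤ Z0 := by rw [hZ0]; exact le_max_left _ _
  have hl2 : 0 < Real.log 2 := Real.log_pos (by norm_num)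
  obtain ⟨K, hK⟩ : ∃ K : ℝ, K = K1 + K1 * (Real.log Z0 / Real.log 2) + 1 := ⟨_, rfl⟩
  have hlZ0 : 0 < Real.log Z0 := Real.log_pos (by linarith)
  refine ⟨K, Z0 ^ ε, by rw [hK]; positivity, by positivity, ?_⟩
  intro Y hY Q hQ
  rcases lt_or_ge Y 2 with hY2 | hY2
  · have hQ0 : Q = ∅ := by
      apply Finset.eq_empty_of_forall_notMem
      intro q hq
      obtain ⟨h1, h2, h3, h4, h5, h6, -⟩ := hQ q hq
      have e1 := nb_lt_two hY2 h4
      have e2 := nb_lt_two hY2 h5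
      have e3 := nb_lt_two hY2 h6
      omega
    rw [hQ0]
    simp only [Finset.card_empty, Nat.cast_zero]
    positivity
  have hYpos : 0 < Y := by linarith
  obtain ⟨Z, hZ⟩ : ∃ Z : ℝ, Z = Z0 * Y := ⟨_, rfl⟩
  have hZY : Y ≤ Z := by rw [hZ]; nlinarith
  have hZZ0 : Z0 ≤ Z := by rw [hZ]; nlinarith
  have hZpos : 0 < Z := by linarith
  have hZ1' : 1 ≤ Z := by linarith
  have hZ4 : 4 ≤ Z := by linarith
  have hZfin : Z ^ ε = Z0 ^ ε * Y ^ ε := by
    rw [hZ, Real.mul_rpow (by linarith) (by linarith)]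
  have hcount := hZ1 Z (hZ01.trans hZZ0)
  have hZK : Z ^ K1 ≤ Y ^ K := by
    rw [← Real.rpow_natCast, hZ, Real.mul_rpow (by linarith) (by linarith)]
    have h1 : Z0 ^ (K1 : ℝ) ≤ Y ^ (K1 * (Real.log Z0 / Real.log 2)) := by
      rw [Real.rpow_def_of_pos (by linarith), Real.rpow_def_of_pos hYpos]
      apply Real.exp_le_exp.mpr
      have h2 : Real.log 2 ≤ Real.log Y := Real.log_le_log (by norm_num) hY2
      calc Real.log Z0 * K1 = Real.log 2 * (K1 * (Real.log Z0 / Real.log 2)) := by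
            field_simp
        _ ≤ Real.log Y * (K1 * (Real.log Z0 / Real.log 2)) := by
            apply mul_le_mul_of_nonneg_right h2
            positivity
    calc Z0 ^ (K1 : ℝ) * Y ^ (K1 : ℝ) ≤ Y ^ (K1 * (Real.log Z0 / Real.log 2)) * Y ^ (K1 : ℝ) := by
          gcongr
      _ = Y ^ (K1 * (Real.log Z0 / Real.log 2) + K1) := by rw [← Real.rpow_add hYpos]
      _ ≤ Y ^ K := by
          apply Real.rpow_le_rpow_of_exponent_le hY
          rw [hK]
          linarith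
  rw [← hZfin]
  apply hcount Q
  intro q hq
  obtain ⟨h1, h2, h3, h4, h5, h6, h7⟩ := hQ q hq
  have hht := hH Y hY2 q.1 q.2 h1 h2 h3 h4 h5 h6
  have hYZ : Y ^ H ≤ Z ^ H := pow_le_pow_left₀ hYpos.le hZY _
  obtain ⟨x1, a1, hx1, hm1, hb1⟩ := nb_small (B := Z ^ H) h4 (by
    refine le_trans ?_ (hht.trans hYZ)
    apply Real.log_le_log (by exact_mod_cast h1)
    exact_mod_cast (by omega : q.1 ≤ q.1 + q.2))
  obtain ⟨x2, a2, hx2, hm2, hb2⟩ := nb_small (B := Z ^ H) h5 (by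
    refine le_trans ?_ (hht.trans hYZ)
    apply Real.log_le_log (by exact_mod_cast h2)
    exact_mod_cast (by omega : q.2 ≤ q.1 + q.2))
  obtain ⟨x3, a3, hx3, hm3, hb3⟩ := nb_small (B := Z ^ H) h6 (hht.trans hYZ)
  obtain ⟨x, hx⟩ : ∃ x : Fin 3 → Fin n → ℕ, x = ![x1, x2, x3] := ⟨_, rfl⟩
  obtain ⟨a, ha⟩ : ∃ a : Fin 3 → Fin n → ℕ, a = ![a1, a2, a3] := ⟨_, rfl⟩
  have hxp : ∀ j i, 0 < x j i ∧ (x j i : ℝ) ≤ Y := by
    intro j i
    rw [hx]
    fin_cases j
    · exact hx1 i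
    · exact hx2 i
    · exact hx3 i
  have hab : ∀ j i, (a j i : ℝ) ≤ 2 * Z ^ H := by
    intro j i
    rw [ha]
    fin_cases j
    · exact hb1 i
    · exact hb2 i
    · exact hb3 i
  have hm : (q.1 = ∏ i, x 0 i ^ a 0 i) ∧ (q.2 = ∏ i, x 1 i ^ a 1 i) ∧
      (q.1 + q.2 = ∏ i, x 2 i ^ a 2 i) := by
    rw [hx, ha]
    exact ⟨hm1, hm2, hm3⟩
  refine ⟨h1, h2, h3, hZK.trans h7, fun s => x s.1 s.2, fun j s =>
    (if s.1 = j.castSucc then (a s.1 s.2 : ℤ) else 0) - (if s.1 = 2 then (a s.1 s.2 : ℤ) else 0),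
    fun s => ⟨(hxp s.1 s.2).1, (hxp s.1 s.2).2.trans hZY⟩, ?_, ?_, ?_⟩
  · intro j s
    have f1 := hab s.1 s.2
    have f2 : (0 : ℝ) ≤ (a s.1 s.2 : ℝ) := Nat.cast_nonneg _
    have f3 : 2 * Z ^ H ≤ Z ^ (H + 1) := by
      rw [pow_succ]
      have : 0 < Z ^ H := by positivity
      nlinarith
    push_cast
    rw [abs_le]
    split_ifs
    · constructor <;> linarith
    · constructor <;> linarith
    · constructor <;> linarith
    · have : (0 : ℝ) ≤ Z ^ (H + 1) := by positivity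
      constructor <;> linarith
  · have e0 := prod3 x (fun j i => (hxp j i).1) a 0
    have f0 : (Fin.castSucc (0 : Fin 2)) = (0 : Fin 3) := rfl
    rw [f0, ← hm.1, ← hm.2.2] at e0
    exact e0
  · have e1 := prod3 x (fun j i => (hxp j i).1) a 1
    have f1 : (Fin.castSucc (1 : Fin 2)) = (1 : Fin 3) := rfl
    rw [f1, ← hm.2.1, ← hm.2.2] at e1
    exact e1

end Pool.Agent.Y913.Zm
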