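import Pool.Agent.Y913.Zm.Spr

/-!
The count of the coprime pairs of the solutions of `A X + B Y = C Z` in products of small spread.
-/

set_option autoImplicit false

namespace Pool.Agent.Y913.Zm

open Finset Filter Pool.Agent.Y913 Pool.Agent.Y913.Nb Pool.Agent.Y913.Vm Pool.Agent.Y913.Wm

/-- the number of small products -/
lemma card_small (n : ℕ) (S : ℕ) {K s : ℝ} (hK : 0 < K) (hs : 0 < s) : ∃ C : ℝ, 0 < C ∧
    ∀ Y : ℝ, 1 ≤ Y → ∀ R : ℕ, K / R ≤ s →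
      ((Vs n ⌊2 * (K * Real.log Y)⌋₊ ⌊Y ^ (K / R) + S⌋₊ ⌊Y ^ (K / R)⌋₊).card : ℝ) ≤
        C * Y ^ (s * (2 * n + 2)) := by
  obtain ⟨A, hA⟩ : ∃ A : ℝ, A = 2 * K / s + 1 := ⟨_, rfl⟩
  have hA0 : 0 < A := by rw [hA]; positivity
  refine ⟨A ^ n * ((S + 2) ^ n * (A * 2)), by positivity, ?_⟩
  intro Y hY R hR
  have hY0 : 0 < Y := by linarith
  have hYs1 : 1 ≤ Y ^ s := Real.one_le_rpow hY hs.le
  have hKR : Y ^ (K / R) ≤ Y ^ s := Real.rpow_le_rpow_of_exponent_le hY hR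
  have hl0 : 0 ≤ Real.log Y := Real.log_nonneg hY
  have h1 : ((⌊2 * (K * Real.log Y)⌋₊ : ℕ) : ℝ) + 1 ≤ A * Y ^ s := by
    have h2 : ((⌊2 * (K * Real.log Y)⌋₊ : ℕ) : ℝ) ≤ 2 * (K * Real.log Y) :=
      Nat.floor_le (by positivity)
    have h3 : Real.log Y ≤ Y ^ s / s := Real.log_le_rpow_div hY0.le hs
    have h4 : 2 * (K * Real.log Y) ≤ 2 * K / s * Y ^ s := by
      calc 2 * (K * Real.log Y) ≤ 2 * (K * (Y ^ s / s)) := by gcongr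
        _ = 2 * K / s * Y ^ s := by ring
    rw [hA]
    nlinarith
  have h2 : ((⌊Y ^ (K / R) + S⌋₊ : ℕ) : ℝ) + 1 ≤ (S + 2) * Y ^ s := by
    have h3 : ((⌊Y ^ (K / R) + S⌋₊ : ℕ) : ℝ) ≤ Y ^ (K / R) + S := Nat.floor_le (by positivity)
    have h4 : (0 : ℝ) ≤ (S : ℝ) := Nat.cast_nonneg _
    nlinarith
  have h3 : ((⌊Y ^ (K / R)⌋₊ : ℕ) : ℝ) + 1 ≤ 2 * Y ^ s := by
    have h4 : ((⌊Y ^ (K / R)⌋₊ : ℕ) : ℝ) ≤ Y ^ (K / R) := Nat.floor_le (by positivity)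
    linarith
  have h4 := card_Vs n ⌊2 * (K * Real.log Y)⌋₊ ⌊Y ^ (K / R) + S⌋₊ ⌊Y ^ (K / R)⌋₊
  have h5 : ((Vs n ⌊2 * (K * Real.log Y)⌋₊ ⌊Y ^ (K / R) + S⌋₊ ⌊Y ^ (K / R)⌋₊).card : ℝ) ≤
      ((⌊2 * (K * Real.log Y)⌋₊ : ℕ) + 1 : ℝ) ^ n *
        (((⌊Y ^ (K / R) + S⌋₊ : ℕ) + 1 : ℝ) ^ n *
          (((⌊2 * (K * Real.log Y)⌋₊ : ℕ) + 1 : ℝ) * ((⌊Y ^ (K / R)⌋₊ : ℕ) + 1 : ℝ))) := by
    exact_mod_cast h4
  refine h5.trans ?_
  calc _ ≤ (A * Y ^ s) ^ n * (((S + 2) * Y ^ s) ^ n * ((A * Y ^ s) * (2 * Y ^ s))) := by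
        gcongr
    _ = A ^ n * ((S + 2) ^ n * (A * 2)) * ((Y ^ s) ^ n * ((Y ^ s) ^ n * (Y ^ s * Y ^ s))) := by
        rw [mul_pow, mul_pow]
        ring
    _ = A ^ n * ((S + 2) ^ n * (A * 2)) * Y ^ (s * (2 * n + 2)) := by
        congr 1
        rw [← Real.rpow_natCast, ← Real.rpow_mul hY0.le, ← Real.rpow_add hY0,
          ← Real.rpow_add hY0, ← Real.rpow_add hY0]
        congr 1
        ring

/-- **the count** -/
theorem sw_count (S Q A B C : ℕ) (hA : 0 < A) (hB : 0 < B) (hC : 0 < C) (ε : ℝ) (hε : 0 < ε) :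
    ∃ (R : ℕ) (C0 : ℝ), 1 ≤ R ∧ 0 < C0 ∧ ∀ T : ℕ, 1 ≤ T → ∀ P : Finset (ℕ × ℕ),
      (∀ q ∈ P, ∃ w, Sw S Q T R A B C w ∧ q = Cp A B w) → (P.card : ℝ) ≤ C0 * (T : ℝ) ^ ε := by
  classical
  obtain ⟨M, hM⟩ : ∃ M : ℕ, M = A + B + (Q + 1) := ⟨_, rfl⟩
  obtain ⟨e1, he1⟩ : ∃ e1 : ℕ, e1 = (S + 2) * M + 1 := ⟨_, rfl⟩
  have he10 : 0 < e1 := by omega
  have he1r : (0 : ℝ) < (e1 : ℝ) := by exact_mod_cast he10
  obtain ⟨K1, C1, hK1, hC1, hnt⟩ := nt_count (S + 3) (ε / e1) (by positivity)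
  obtain ⟨K2, hK2⟩ : ∃ K2 : ℝ, K2 = 2 + Q + (S + 1) + e1 * K1 := ⟨_, rfl⟩
  have hK20 : 0 < K2 := by rw [hK2]; positivity
  obtain ⟨s, hs⟩ : ∃ s : ℝ, s = ε / (4 * (S + 2)) := ⟨_, rfl⟩
  have hs0 : 0 < s := by rw [hs]; positivity
  obtain ⟨C5, hC5, hcs⟩ := card_small (S + 1) S hK20 hs0
  obtain ⟨R, hR⟩ : ∃ R : ℕ, R = ⌈K2 / s⌉₊ + 1 := ⟨_, rfl⟩
  have hR1 : 1 ≤ R := by omega
  have hRs : K2 / R ≤ s := by
    have h1 : K2 / s ≤ R := by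
      rw [hR]
      push_cast
      have := Nat.le_ceil (K2 / s)
      linarith
    rw [div_le_iff₀ hs0] at h1
    rw [div_le_iff₀ (by positivity)]
    linarith
  obtain ⟨D, hD⟩ : ∃ D : ℕ, D = A + B + C + S + 2 := ⟨_, rfl⟩
  refine ⟨R, (C1 + C5 ^ 2) * (D : ℝ) ^ ε, hR1, by
    have : (0 : ℝ) < (D : ℝ) := by exact_mod_cast (by omega : 0 < D)
    positivity, ?_⟩
  intro T hT P hP
  obtain ⟨Y, hYdef⟩ : ∃ Y : ℝ, Y = (D : ℝ) * T := ⟨_, rfl⟩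
  have hT1 : (1 : ℝ) ≤ (T : ℝ) := by exact_mod_cast hT
  have hD2 : (2 : ℝ) ≤ (D : ℝ) := by exact_mod_cast (by omega : 2 ≤ D)
  have hY2 : 2 ≤ Y := by rw [hYdef]; nlinarith
  have hY1 : 1 ≤ Y := by linarith
  have hY0 : 0 < Y := by linarith
  have hDY : (D : ℝ) ≤ Y := by rw [hYdef]; nlinarith
  have hTSY : (T : ℝ) + S ≤ Y := by
    have h1 : T + S ≤ D * T := by
      have : S ≤ S * T := Nat.le_mul_of_pos_right _ hT
      calc T + S ≤ T + S * T := by omega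
        _ = (1 + S) * T := by ring
        _ ≤ D * T := Nat.mul_le_mul_right _ (by omega)
    rw [hYdef]
    exact_mod_cast h1
  have hAY : (A : ℝ) ≤ Y := le_trans (by exact_mod_cast (by omega : A ≤ D)) hDY
  have hBY : (B : ℝ) ≤ Y := le_trans (by exact_mod_cast (by omega : B ≤ D)) hDY
  have hCY : (C : ℝ) ≤ Y := le_trans (by exact_mod_cast (by omega : C ≤ D)) hDY
  obtain ⟨Y1, hY1def⟩ : ∃ Y1 : ℝ, Y1 = Y ^ e1 := ⟨_, rfl⟩
  have hY11 : 1 ≤ Y1 := by rw [hY1def]; exact one_le_pow₀ hY1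
  -- facts for a solution
  have facts : ∀ w, Sw S Q T R A B C w → 0 < (Cp A B w).1 ∧ 0 < (Cp A B w).2 ∧
      Nat.Coprime (Cp A B w).1 (Cp A B w).2 ∧ NB (S + 3) Y1 (Cp A B w).1 ∧
      NB (S + 3) Y1 (Cp A B w).2 ∧ NB (S + 3) Y1 ((Cp A B w).1 + (Cp A B w).2) ∧
      ((((Cp A B w).1 + (Cp A B w).2 : ℕ) : ℝ) < Y1 ^ K1 →
        (w.1 : ℝ) < Y ^ K2 ∧ (w.2.1 : ℝ) < Y ^ K2) := by
    rintro w ⟨heq, hg, hX, hYw, hZ⟩
    obtain ⟨G, hG⟩ : ∃ G : ℕ, G = Nat.gcd (A * w.1) (B * w.2.1) := ⟨_, rfl⟩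
    obtain ⟨g, hgd⟩ : ∃ g : ℕ, g = Nat.gcd w.1 w.2.1 := ⟨_, rfl⟩
    rw [← hgd] at hg
    have hX0 := hX.pos
    have hY0' := hYw.pos
    have hZ0 := hZ.pos
    have hg0 : 0 < g := by rw [hgd]; exact Nat.gcd_pos_of_pos_left _ hX0
    have hAX : 0 < A * w.1 := Nat.mul_pos hA hX0
    have hBY' : 0 < B * w.2.1 := Nat.mul_pos hB hY0'
    have hG0 : 0 < G := by rw [hG]; exact Nat.gcd_pos_of_pos_left _ hAX
    have hGA : G ∣ A * w.1 := by rw [hG]; exact Nat.gcd_dvd_left _ _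
    have hGB : G ∣ B * w.2.1 := by rw [hG]; exact Nat.gcd_dvd_right _ _
    obtain ⟨q1, hq1⟩ : ∃ q1, q1 = A * w.1 / G := ⟨_, rfl⟩
    obtain ⟨q2, hq2⟩ : ∃ q2, q2 = B * w.2.1 / G := ⟨_, rfl⟩
    have hCp : Cp A B w = (q1, q2) := by
      unfold Cp
      rw [← hG, ← hq1, ← hq2]
    rw [hCp]
    simp only
    have m1 : A * w.1 = q1 * G := by rw [hq1]; exact (Nat.div_mul_cancel hGA).symm
    have m2 : B * w.2.1 = q2 * G := by rw [hq2]; exact (Nat.div_mul_cancel hGB).symm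
    have m3 : C * w.2.2 = (q1 + q2) * G := by rw [← heq, m1, m2]; ring
    have hq10 : 0 < q1 := by
      rcases Nat.eq_zero_or_pos q1 with h0 | h0
      · rw [h0, zero_mul] at m1
        omega
      · exact h0
    have hq20 : 0 < q2 := by
      rcases Nat.eq_zero_or_pos q2 with h0 | h0
      · rw [h0, zero_mul] at m2
        omega
      · exact h0
    have hcop : Nat.Coprime q1 q2 := by
      rw [hq1, hq2, hG]
      exact Nat.coprime_div_gcd_div_gcd (by rw [← hG]; exact hG0)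
    have hGd : G ∣ A * B * g := by rw [hG, hgd]; exact gcd_dvd _ _ _ _
    have hABg : A * B * g ≠ 0 := by positivity
    have hGM : ∀ p, G.factorization p ≤ M := by
      intro p
      have h1 := (Nat.factorization_le_iff_dvd hG0.ne' hABg).mpr hGd p
      rw [Nat.factorization_mul (by positivity) hg0.ne', Nat.factorization_mul hA.ne' hB.ne'] at h1
      simp only [Finsupp.add_apply] at h1
      have h2 := Nat.factorization_lt (n := A) p hA.ne'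
      have h3 := Nat.factorization_lt (n := B) p hB.ne'
      have h4 := rad_fact hg0 hg p
      rw [hM]
      omega
    have nX : NB (S + 2) Y (A * w.1) := (hX.nb hTSY).mul_base hA hAY
    have nY : NB (S + 2) Y (B * w.2.1) := (hYw.nb hTSY).mul_base hB hBY
    have nZ : NB (S + 2) Y (C * w.2.2) := (hZ.nb hTSY).mul_base hC hCY
    have n1 := nb_quot hY1 nX m1 hG0 hGM
    have n2 := nb_quot hY1 nY m2 hG0 hGM
    have n3 := nb_quot hY1 nZ m3 hG0 hGM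
    rw [← he1, ← hY1def] at n1 n2 n3
    refine ⟨hq10, hq20, hcop, n1, n2, n3, ?_⟩
    intro hsmall
    have hrad : ((∏ p ∈ g.primeFactors, p : ℕ) : ℝ) ≤ Y ^ (S + 1) :=
      hX.rad hTSY (by rw [hgd]; exact Nat.gcd_dvd_left _ _)
    have hgY : (g : ℝ) ≤ Y ^ Q * Y ^ (S + 1) := by
      have h1 : (g : ℝ) ≤ (Q : ℝ) * ((∏ p ∈ g.primeFactors, p : ℕ) : ℝ) := by
        exact_mod_cast hg
      have h2 : (Q : ℝ) ≤ Y ^ Q := by
        calc (Q : ℝ) ≤ 2 ^ Q := by exact_mod_cast (Nat.lt_two_pow_self (n := Q)).le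
          _ ≤ Y ^ Q := pow_le_pow_left₀ (by norm_num) hY2 _
      calc (g : ℝ) ≤ (Q : ℝ) * ((∏ p ∈ g.primeFactors, p : ℕ) : ℝ) := h1
        _ ≤ Y ^ Q * Y ^ (S + 1) := by gcongr
    have hGY : (G : ℝ) ≤ Y * Y * (Y ^ Q * Y ^ (S + 1)) := by
      have h1 : G ≤ A * B * g := Nat.le_of_dvd (by positivity) hGd
      calc (G : ℝ) ≤ ((A * B * g : ℕ) : ℝ) := by exact_mod_cast h1
        _ = (A : ℝ) * B * g := by push_cast; ring
        _ ≤ Y * Y * (Y ^ Q * Y ^ (S + 1)) := by gcongr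
    have hY1K : Y1 ^ K1 = Y ^ (e1 * K1) := by
      rw [hY1def, ← Real.rpow_natCast, ← Real.rpow_mul hY0.le]
    have hV : Y * Y * (Y ^ Q * Y ^ (S + 1)) * Y ^ (e1 * K1) = Y ^ K2 := by
      rw [hK2, Real.rpow_add hY0, Real.rpow_add hY0, Real.rpow_add hY0]
      rw [show ((S : ℝ) + 1) = ((S + 1 : ℕ) : ℝ) by push_cast; ring, Real.rpow_natCast,
        Real.rpow_natCast, show (2 : ℝ) = ((2 : ℕ) : ℝ) by norm_num, Real.rpow_natCast]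
      ring
    have hG0r : (0 : ℝ) < (G : ℝ) := by exact_mod_cast hG0
    have hkey : ∀ u v t : ℕ, 0 < u → u * v = t * G → t ≤ q1 + q2 → (v : ℝ) < Y ^ K2 := by
      intro u v t hu huv ht
      have h1 : (v : ℝ) ≤ (t : ℝ) * G := by
        have h2 : v ≤ t * G := by rw [← huv]; exact Nat.le_mul_of_pos_left _ hu
        exact_mod_cast h2
      have h2 : (t : ℝ) ≤ ((q1 + q2 : ℕ) : ℝ) := by exact_mod_cast ht
      have h3 : (t : ℝ) < Y ^ (e1 * K1) := by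
        rw [← hY1K]
        linarith
      calc (v : ℝ) ≤ (t : ℝ) * G := h1
        _ < Y ^ (e1 * K1) * G := mul_lt_mul_of_pos_right h3 hG0r
        _ ≤ Y ^ (e1 * K1) * (Y * Y * (Y ^ Q * Y ^ (S + 1))) :=
            mul_le_mul_of_nonneg_left hGY (by positivity)
        _ = Y ^ K2 := by rw [← hV]; ring
    exact ⟨hkey A w.1 q1 hA m1 (by omega), hkey B w.2.1 q2 hB m2 (by omega)⟩
  -- the large pairs
  have c1 := hnt Y1 hY11 (P.filter (fun q => Y1 ^ K1 ≤ ((q.1 + q.2 : ℕ) : ℝ))) (by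
    intro q hq
    obtain ⟨hq, hbig⟩ := Finset.mem_filter.mp hq
    obtain ⟨w, hw, rfl⟩ := hP q hq
    obtain ⟨g1, g2, g3, g4, g5, g6, -⟩ := facts w hw
    exact ⟨g1, g2, g3, g4, g5, g6, hbig⟩)
  have c1' : ((P.filter (fun q => Y1 ^ K1 ≤ ((q.1 + q.2 : ℕ) : ℝ))).card : ℝ) ≤ C1 * Y ^ ε := by
    refine c1.trans (le_of_eq ?_)
    rw [hY1def, ← Real.rpow_natCast, ← Real.rpow_mul hY0.le]
    congr 2
    field_simp
  -- the small pairs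
  choose! w hw hqw using hP
  have c2 : ((P.filter (fun q => ¬ Y1 ^ K1 ≤ ((q.1 + q.2 : ℕ) : ℝ))).card : ℝ) ≤
      (C5 * Y ^ (s * (2 * ((S + 1 : ℕ) : ℝ) + 2))) ^ 2 := by
    obtain ⟨V, hV⟩ : ∃ V, V = Vs (S + 1) ⌊2 * (K2 * Real.log Y)⌋₊ ⌊Y ^ (K2 / R) + S⌋₊
      ⌊Y ^ (K2 / R)⌋₊ := ⟨_, rfl⟩
    have h1 : (P.filter (fun q => ¬ Y1 ^ K1 ≤ ((q.1 + q.2 : ℕ) : ℝ))).card ≤ (V ×ˢ V).card := by
      apply Finset.card_le_card_of_injOn (fun q => ((w q).1, (w q).2.1))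
      · intro q hq
        obtain ⟨hq, hsm⟩ := Finset.mem_filter.mp (Finset.mem_coe.mp hq)
        rw [not_le, hqw q hq] at hsm
        obtain ⟨-, -, -, -, -, -, g7⟩ := facts (w q) (hw q hq)
        obtain ⟨g8, g9⟩ := g7 hsm
        obtain ⟨-, -, hX, hYw, -⟩ := hw q hq
        rw [Finset.mem_coe, Finset.mem_product, hV]
        exact ⟨hX.mem hR1 hY1 hK20.le g8, hYw.mem hR1 hY1 hK20.le g9⟩
      · intro q hq q' hq' heq
        obtain ⟨hq, -⟩ := Finset.mem_filter.mp (Finset.mem_coe.mp hq)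
        obtain ⟨hq', -⟩ := Finset.mem_filter.mp (Finset.mem_coe.mp hq')
        simp only [Prod.mk.injEq] at heq
        rw [hqw q hq, hqw q' hq']
        unfold Cp
        rw [heq.1, heq.2]
    have h2 := hcs Y hY1 R hRs
    rw [← hV] at h2
    rw [Finset.card_product] at h1
    calc ((P.filter (fun q => ¬ Y1 ^ K1 ≤ ((q.1 + q.2 : ℕ) : ℝ))).card : ℝ) ≤
          ((V.card * V.card : ℕ) : ℝ) := by exact_mod_cast h1
      _ = (V.card : ℝ) ^ 2 := by push_cast; ring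
      _ ≤ _ := pow_le_pow_left₀ (Nat.cast_nonneg _) h2 _
  have c2' : (C5 * Y ^ (s * (2 * ((S + 1 : ℕ) : ℝ) + 2))) ^ 2 = C5 ^ 2 * Y ^ ε := by
    rw [mul_pow, ← Real.rpow_natCast (Y ^ (s * (2 * ((S + 1 : ℕ) : ℝ) + 2))),
      ← Real.rpow_mul hY0.le]
    congr 2
    rw [hs]
    push_cast
    field_simp
    ring
  have hcard : (P.card : ℝ) = (P.filter (fun q => Y1 ^ K1 ≤ ((q.1 + q.2 : ℕ) : ℝ))).card +
      (P.filter (fun q => ¬ Y1 ^ K1 ≤ ((q.1 + q.2 : ℕ) : ℝ))).card := by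
    exact_mod_cast (Finset.card_filter_add_card_filter_not
      (fun q : ℕ × ℕ => Y1 ^ K1 ≤ ((q.1 + q.2 : ℕ) : ℝ))).symm
  have hYε : Y ^ ε = (D : ℝ) ^ ε * (T : ℝ) ^ ε := by
    rw [hYdef, Real.mul_rpow (by linarith) (by linarith)]
  calc (P.card : ℝ) ≤ C1 * Y ^ ε + C5 ^ 2 * Y ^ ε := by
        rw [← c2']
        linarith
    _ = (C1 + C5 ^ 2) * (D : ℝ) ^ ε * (T : ℝ) ^ ε := by rw [hYε]; ring

end Pool.Agent.Y913.Zm
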