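import Pool.Agent.Y913.Zm.Fn
import Pool.Agent.Y913.Vm.Fer

/-!
Solutions of `a x ^ p + b y ^ q = c z ^ r` with two large exponents, counted by bases.
-/

set_option autoImplicit false

namespace Pool.Agent.Y913.Zm

open Finset Filter Pool.Agent.Y913 Pool.Agent.Y913.Nb Pool.Agent.Y913.Vm Pool.Agent.Y913.Wm

/-- triples whose members are `a * x ^ p` with `a` a product of powers of `n` integers `≤ W` -/
def FA (n R : ℕ) (W Y : ℝ) (q : ℕ × ℕ) : Prop :=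
  0 < q.1 ∧ 0 < q.2 ∧ Nat.Coprime q.1 q.2 ∧ ∃ a x p : Fin 3 → ℕ,
    (∀ i, mem3 q i = a i * x i ^ p i ∧ NB n W (a i) ∧ 0 < x i ∧ (x i : ℝ) ≤ Y) ∧
    (∃ i j, i ≠ j ∧ R ≤ p i ∧ R ≤ p j)

lemma FA.nb {n R : ℕ} {W Y : ℝ} (hWY : W ≤ Y) {q : ℕ × ℕ} (h : FA n R W Y q) :
    NB (n + 1) Y q.1 ∧ NB (n + 1) Y q.2 ∧ NB (n + 1) Y (q.1 + q.2) := by
  obtain ⟨h1, h2, h3, a, x, p, hrep, -⟩ := h
  have hnb : ∀ i, NB (n + 1) Y (mem3 q i) := by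
    intro i
    obtain ⟨g1, g2, g3, g4⟩ := hrep i
    rw [g1]
    apply NB.mul
    · exact g2.mono_Y hWY
    · exact ⟨fun _ => x i, fun _ => p i, fun _ => ⟨g3, g4⟩, by simp⟩
  exact ⟨hnb 0, hnb 1, hnb 2⟩

/-- **the count for two large exponents** -/
theorem fa_count (n : ℕ) (ε : ℝ) (hε : 0 < ε) : ∃ R : ℕ, ∃ C η : ℝ, 0 < C ∧ 0 < η ∧
    ∀ Y : ℝ, 1 ≤ Y → ∀ Q : Finset (ℕ × ℕ),
      (∀ q ∈ Q, FA n R (Y ^ η) Y q) → (Q.card : ℝ) ≤ C * Y ^ ε := by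
  classical
  obtain ⟨K, C1, hK, hC1, h1⟩ := nt_count (n + 1) ε hε
  obtain ⟨R, C2, η2, hC2, hη2, h2⟩ := ft_count n 1 ε one_pos hε
  obtain ⟨η, hη⟩ : ∃ η : ℝ, η = min 1 η2 := ⟨_, rfl⟩
  have hη0 : 0 < η := by rw [hη]; exact lt_min one_pos hη2
  have hη1 : η ≤ 1 := by rw [hη]; exact min_le_left _ _
  have hηη2 : η ≤ η2 := by rw [hη]; exact min_le_right _ _
  have hev : ∀ᶠ Z : ℝ in atTop, K * Real.log Z ≤ Z ^ η2 := by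
    have h3 := (isLittleO_log_rpow_atTop hη2).bound (by positivity : (0 : ℝ) < 1 / K)
    filter_upwards [h3, eventually_gt_atTop (1 : ℝ)] with Z h4 hZ
    have hl0 : 0 ≤ Real.log Z := Real.log_nonneg hZ.le
    rw [Real.norm_eq_abs, Real.norm_eq_abs, abs_of_nonneg hl0, abs_of_pos (by positivity)] at h4
    calc K * Real.log Z ≤ K * (1 / K * Z ^ η2) := mul_le_mul_of_nonneg_left h4 hK.le
      _ = Z ^ η2 := by field_simp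
  obtain ⟨Z1, hZ1⟩ := eventually_atTop.mp hev
  obtain ⟨L, hL⟩ : ∃ L : ℝ, L = max Z1 1 := ⟨_, rfl⟩
  have hL1 : 1 ≤ L := by rw [hL]; exact le_max_right _ _
  have hLZ : Z1 ≤ L := by rw [hL]; exact le_max_left _ _
  refine ⟨R, (C1 + C2) * L ^ ε, η, by positivity, hη0, ?_⟩
  intro Y hY Q hQ
  obtain ⟨Z, hZ⟩ : ∃ Z : ℝ, Z = L * Y := ⟨_, rfl⟩
  have hYZ : Y ≤ Z := by rw [hZ]; nlinarith
  have hLZ' : L ≤ Z := by rw [hZ]; nlinarith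
  have hZ1' : 1 ≤ Z := hL1.trans hLZ'
  have hZ0 : 0 < Z := by linarith
  have hYη : Y ^ η ≤ Z ^ η2 := by
    calc Y ^ η ≤ Z ^ η := Real.rpow_le_rpow (by linarith) hYZ hη0.le
      _ ≤ Z ^ η2 := Real.rpow_le_rpow_of_exponent_le hZ1' hηη2
  have hYηZ : Y ^ η ≤ Z := by
    calc Y ^ η ≤ Y ^ (1 : ℝ) := Real.rpow_le_rpow_of_exponent_le hY hη1
      _ = Y := Real.rpow_one Y
      _ ≤ Z := hYZ
  have c1 := h1 Z hZ1' (Q.filter (fun q => Z ^ K ≤ ((q.1 + q.2 : ℕ) : ℝ))) (by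
    intro q hq
    obtain ⟨hq, hM⟩ := Finset.mem_filter.mp hq
    obtain ⟨g1, g2, g3, a, x, p, hrep, hR⟩ := hQ q hq
    have hFA : FA n R (Y ^ η) Z q :=
      ⟨g1, g2, g3, a, x, p, fun i => ⟨(hrep i).1, (hrep i).2.1, (hrep i).2.2.1,
        (hrep i).2.2.2.trans hYZ⟩, hR⟩
    obtain ⟨n1, n2, n3⟩ := hFA.nb hYηZ
    exact ⟨g1, g2, g3, n1, n2, n3, hM⟩)
  have c2 := h2 Z hZ1' (Q.filter (fun q => ¬ Z ^ K ≤ ((q.1 + q.2 : ℕ) : ℝ))) (by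
    intro q hq
    obtain ⟨hq, hM⟩ := Finset.mem_filter.mp hq
    rw [not_le] at hM
    obtain ⟨g1, g2, g3, a, x, p, hrep, hR⟩ := hQ q hq
    refine ⟨g1, g2, g3, a, x, p, fun i => ⟨(hrep i).1, (hrep i).2.1.mono_Y hYη,
      (hrep i).2.2.1, (hrep i).2.2.2.trans hYZ⟩, hR, Or.inr (Or.inr ?_)⟩
    have hM0 : (0 : ℝ) < ((q.1 + q.2 : ℕ) : ℝ) := by exact_mod_cast (by omega : 0 < q.1 + q.2)
    calc Real.log ((q.1 + q.2 : ℕ) : ℝ) ≤ Real.log (Z ^ K) := Real.log_le_log hM0 hM.le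
      _ = K * Real.log Z := Real.log_rpow hZ0 K
      _ ≤ Z ^ η2 := hZ1 Z (hLZ.trans hLZ'))
  have hcard : (Q.card : ℝ) = (Q.filter (fun q => Z ^ K ≤ ((q.1 + q.2 : ℕ) : ℝ))).card +
      (Q.filter (fun q => ¬ Z ^ K ≤ ((q.1 + q.2 : ℕ) : ℝ))).card := by
    exact_mod_cast (Finset.card_filter_add_card_filter_not
      (fun q : ℕ × ℕ => Z ^ K ≤ ((q.1 + q.2 : ℕ) : ℝ))).symm
  have hfin : Z ^ ε = L ^ ε * Y ^ ε := by
    rw [hZ, Real.mul_rpow (by linarith) (by linarith)]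
  calc (Q.card : ℝ) ≤ C1 * Z ^ ε + C2 * Z ^ ε := by linarith
    _ = (C1 + C2) * L ^ ε * Y ^ ε := by rw [hfin]; ring

end Pool.Agent.Y913.Zm
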