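import Pool.Agent.Y913.Zm.Rp

/-!
The number of triples whose ratios are power products of small integers with bounded exponents.
-/

set_option autoImplicit false

namespace Pool.Agent.Y913.Zm

open Finset Filter Pool.Agent.Y913 Pool.Agent.Y913.Nb Pool.Agent.Y913.Vm Pool.Agent.Y913.Wm

/-- the triples counted: the ratios are power products of integers `≤ Z` indexed by `σ` -/
def Rb (σ : Type) [Fintype σ] (H : ℕ) (K Z : ℝ) (q : ℕ × ℕ) : Prop :=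
  0 < q.1 ∧ 0 < q.2 ∧ Nat.Coprime q.1 q.2 ∧ K ≤ ((q.1 + q.2 : ℕ) : ℝ) ∧
  ∃ (x : σ → ℕ) (E : Fin 2 → σ → ℤ), (∀ s, 0 < x s ∧ (x s : ℝ) ≤ Z) ∧
    (∀ j s, |(E j s : ℝ)| ≤ Z ^ H) ∧
    (q.1 : ℚ) / ((q.1 + q.2 : ℕ) : ℚ) = ∏ s, ((x s : ℕ) : ℚ) ^ E 0 s ∧
    (q.2 : ℚ) / ((q.1 + q.2 : ℕ) : ℚ) = ∏ s, ((x s : ℕ) : ℚ) ^ E 1 s

lemma ratio_inj {a b a' b' : ℕ} (ha : 0 < a) (hb : 0 < b) (ha' : 0 < a') (hb' : 0 < b')
    (h : Nat.Coprime a b) (h' : Nat.Coprime a' b')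
    (he : (a : ℚ) / ((a + b : ℕ) : ℚ) = (a' : ℚ) / ((a' + b' : ℕ) : ℚ)) : a = a' ∧ b = b' := by
  have hs : ((a + b : ℕ) : ℚ) ≠ 0 := Nat.cast_ne_zero.mpr (by omega)
  have hs' : ((a' + b' : ℕ) : ℚ) ≠ 0 := Nat.cast_ne_zero.mpr (by omega)
  rw [div_eq_div_iff hs hs'] at he
  have heq' : a * (a' + b') = a' * (a + b) := by exact_mod_cast he
  have heq2 : a * b' = a' * b := by nlinarith
  have d1 : a ∣ a' := by
    apply h.dvd_of_dvd_mul_right
    exact ⟨b', heq2.symm⟩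
  have d2 : a' ∣ a := by
    apply h'.dvd_of_dvd_mul_right
    exact ⟨b, heq2⟩
  have e1 : a = a' := Nat.dvd_antisymm d1 d2
  refine ⟨e1, ?_⟩
  rw [e1] at heq2
  exact (Nat.eq_of_mul_eq_mul_left ha' heq2).symm

/-- the count for a fixed set of independent bases and a fixed denominator -/
lemma fib {ν : Type} [Fintype ν] [DecidableEq ν] {C0 K mm : ℕ} {X ε : ℝ} (hmm : 0 < mm)
    (hc : ∀ A B : (Vr ν → ℤ) → ℕ, ∀ E : Finset (Vr ν → ℤ),
      (∀ q ∈ E, Gd C0 X K mm (A q) (B q) q) → Sp E → (E.card : ℝ) ≤ X ^ ε)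
    (F : Finset (ℕ × ℕ)) (hF : ∀ q ∈ F, ∃ v : Vr ν → ℤ, Gd C0 X K mm q.1 q.2 v) :
    (F.card : ℝ) ≤ X ^ ε := by
  classical
  choose! v hv using hF
  have hinj : ∀ q ∈ F, ∀ q' ∈ F, rt (v q) 0 = rt (v q') 0 → q = q' := by
    intro q hq q' hq' h1
    obtain ⟨-, -, -, a1, a2, a3, a4, -, -⟩ := hv q hq
    obtain ⟨-, -, -, b1, b2, b3, b4, -, -⟩ := hv q' hq'
    rw [a4, b4] at h1
    have h2 : (q.1 : ℚ) / ((q.1 + q.2 : ℕ) : ℚ) = (q'.1 : ℚ) / ((q'.1 + q'.2 : ℕ) : ℚ) :=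
      (pow_left_inj₀ (by positivity) (by positivity) hmm.ne').mp h1
    obtain ⟨e1, e2⟩ := ratio_inj a1 a2 b1 b2 a3 b3 h2
    exact Prod.ext e1 e2
  have hcard : F.card = (F.image v).card := by
    rw [Finset.card_image_of_injOn]
    intro q hq q' hq' heq
    exact hinj q hq q' hq' (by rw [heq])
  have hA : ∀ w : Vr ν → ℤ, ∃ p : ℕ × ℕ, w ∈ F.image v → p ∈ F ∧ v p = w := by
    intro w
    by_cases h : w ∈ F.image v
    · obtain ⟨p, hp, hpw⟩ := Finset.mem_image.mp h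
      exact ⟨p, fun _ => ⟨hp, hpw⟩⟩
    · exact ⟨(0, 0), fun h' => absurd h' h⟩
  choose p hp using hA
  rw [hcard]
  apply hc (fun w => (p w).1) (fun w => (p w).2)
  · intro w hw
    obtain ⟨h1, h2⟩ := hp w hw
    have h3 := hv (p w) h1
    rw [h2] at h3
    exact h3
  · intro w hw w' hw' h1 _
    obtain ⟨q, hq, rfl⟩ := Finset.mem_image.mp hw
    obtain ⟨q', hq', rfl⟩ := Finset.mem_image.mp hw'
    rw [hinj q hq q' hq' h1]

/-- **the count** -/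
theorem rb_count (σ : Type) [Fintype σ] [DecidableEq σ] (H : ℕ) (ε : ℝ) (hε : 0 < ε) :
    ∃ K : ℕ, ∀ᶠ Z : ℝ in atTop, ∀ Q : Finset (ℕ × ℕ), (∀ q ∈ Q, Rb σ H (Z ^ K) Z q) →
      (Q.card : ℝ) ≤ Z ^ ε := by
  classical
  obtain ⟨N, hN⟩ : ∃ N, N = Fintype.card σ := ⟨_, rfl⟩
  obtain ⟨K, hK⟩ := unif2 (Finset.univ : Finset (Finset σ))
    (fun J K X => ∀ mm : ℕ, 0 < mm → (mm : ℝ) ≤ X ^ (H + 2) →
      ∀ A B : (Vr {j // j ∈ J} → ℤ) → ℕ, ∀ E : Finset (Vr {j // j ∈ J} → ℤ),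
      (∀ q ∈ E, Gd (H + 2) X K mm (A q) (B q) q) → Sp E → (E.card : ℝ) ≤ X ^ (ε / 4))
    (by
      intro J K K' X hX hK h mm h1 h2 A B E hE hS
      exact h mm h1 h2 A B E (fun q hq => (hE q hq).mono hX hK) hS)
    (by
      intro J _
      exact count_all {j // j ∈ J} (H + 2) (ε / 4) (by positivity))
  obtain ⟨M, hM⟩ : ∃ M : ℕ, M = N * (N + 1) := ⟨_, rfl⟩
  obtain ⟨s, hs⟩ : ∃ s : ℝ, s = min (ε / 4) 1 := ⟨_, rfl⟩
  have hs0 : 0 < s := by rw [hs]; exact lt_min (by positivity) one_pos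
  have hpl := ev_polylog M (C := (2 * N + 1 : ℝ) ^ M) (s := s) (by positivity) hs0
  have hbig : ∀ᶠ Z : ℝ in atTop, (2 : ℝ) ^ (N + 1) ≤ Z ^ (ε / 2) :=
    (tendsto_rpow_atTop (by positivity : 0 < ε / 2)).eventually_ge_atTop _
  refine ⟨K, ?_⟩
  filter_upwards [hK, hpl, hbig, eventually_ge_atTop (4 : ℝ), eventually_ge_atTop (N : ℝ)]
    with Z hcount hpoly hbg hZ4 hZN Q hQ
  have hZ0 : 0 < Z := by linarith
  have hZ1 : 1 ≤ Z := by linarith
  obtain ⟨B, hB⟩ : ∃ B : ℕ, B = Nat.log 2 ⌊Z⌋₊ + 1 := ⟨_, rfl⟩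
  have hBlt : ∀ n : ℕ, (n : ℝ) ≤ Z → n < 2 ^ B := by
    intro n hn
    rw [hB]
    exact (Nat.le_floor hn).trans_lt (Nat.lt_pow_succ_log_self (by norm_num) _)
  have hlZ : 0 ≤ Real.log Z := Real.log_nonneg hZ1
  have hBle : (B : ℝ) ≤ 2 * (1 + Real.log Z) := by
    have h1 : 2 ^ Nat.log 2 ⌊Z⌋₊ ≤ ⌊Z⌋₊ := by
      apply Nat.pow_log_le_self
      have : 1 ≤ ⌊Z⌋₊ := Nat.le_floor (by exact_mod_cast hZ1)
      omega
    have h2 : ((2 ^ Nat.log 2 ⌊Z⌋₊ : ℕ) : ℝ) ≤ Z := by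
      calc ((2 ^ Nat.log 2 ⌊Z⌋₊ : ℕ) : ℝ) ≤ (⌊Z⌋₊ : ℝ) := by exact_mod_cast h1
        _ ≤ Z := Nat.floor_le hZ0.le
    have h3 : (Nat.log 2 ⌊Z⌋₊ : ℝ) * Real.log 2 ≤ Real.log Z := by
      rw [← Real.log_pow]
      apply Real.log_le_log (by positivity)
      exact_mod_cast h2
    have h6 : (0.6931471803 : ℝ) < Real.log 2 := Real.log_two_gt_d9
    have h7 : (0 : ℝ) ≤ (Nat.log 2 ⌊Z⌋₊ : ℝ) := Nat.cast_nonneg _
    rw [hB]
    push_cast
    nlinarith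
  obtain ⟨T, hT⟩ : ∃ T : ℕ, T = (Fintype.card σ * B + 1) ^ Fintype.card σ := ⟨_, rfl⟩
  have hTs : ((T ^ (N + 1) : ℕ) : ℝ) ≤ Z ^ s := by
    have h1 : ((T ^ (N + 1) : ℕ) : ℝ) = ((N : ℝ) * B + 1) ^ M := by
      rw [hT, ← hN, hM]
      push_cast
      rw [← pow_mul]
    have h2 : (N : ℝ) * B + 1 ≤ (2 * N + 1) * (1 + Real.log Z) := by
      have h3 : (N : ℝ) * B ≤ N * (2 * (1 + Real.log Z)) :=
        mul_le_mul_of_nonneg_left hBle (Nat.cast_nonneg _)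
      linarith
    have h4 : (2 * (N : ℝ) + 1) * (1 + Real.log Z) ≤
        (2 * N + 1) * (Z ^ (s / (2 * (M + 1))) + (1 + Real.log Z)) := by
      have : 0 ≤ Z ^ (s / (2 * ((M : ℝ) + 1))) := by positivity
      apply mul_le_mul_of_nonneg_left _ (by positivity)
      linarith
    have h5 : 0 ≤ Real.log 2 := Real.log_nonneg (by norm_num)
    calc ((T ^ (N + 1) : ℕ) : ℝ) = ((N : ℝ) * B + 1) ^ M := h1
      _ ≤ ((2 * N + 1) * (Z ^ (s / (2 * (M + 1))) + (1 + Real.log Z))) ^ M :=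
          pow_le_pow_left₀ (by positivity) (h2.trans h4) _
      _ = (2 * N + 1) ^ M * (Z ^ (s / (2 * (M + 1))) + (1 + Real.log Z)) ^ M := mul_pow _ _ _
      _ ≤ Z ^ s := by linarith
  have hs1 : Z ^ s ≤ Z := by
    calc Z ^ s ≤ Z ^ (1 : ℝ) :=
          Real.rpow_le_rpow_of_exponent_le hZ1 (by rw [hs]; exact min_le_right _ _)
      _ = Z := Real.rpow_one Z
  have hsε : Z ^ s ≤ Z ^ (ε / 4) :=
    Real.rpow_le_rpow_of_exponent_le hZ1 (by rw [hs]; exact min_le_left _ _)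
  have hrep : ∀ q ∈ Q, ∃ (J : Finset σ) (mm : ℕ), (0 < mm ∧ (mm : ℝ) ≤ Z ^ s) ∧
      ∃ v : Vr {j // j ∈ J} → ℤ, Gd (H + 2) Z K mm q.1 q.2 v := by
    intro q hq
    obtain ⟨g1, g2, g3, g4, x, E, g5, g6, g7, g8⟩ := hQ q hq
    obtain ⟨V, hV⟩ : ∃ V : ℤ, V = ⌊Z ^ H⌋ := ⟨_, rfl⟩
    have hV0 : 0 ≤ V := by
      rw [hV]
      exact Int.floor_nonneg.mpr (by positivity)
    have hVZ : (V : ℝ) ≤ Z ^ H := by
      rw [hV]
      exact Int.floor_le _
    obtain ⟨J, mm, v, h1, h2, h3, h4, h5, h6⟩ := rep x (fun s => (g5 s).1) B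
      (fun s => hBlt _ (g5 s).2) E V hV0 (by
        intro j s
        rw [hV]
        apply Int.le_floor.mpr
        have := g6 j s
        push_cast
        exact this) T hT
    rw [← hN] at h2 h4
    refine ⟨J, mm, ⟨h1, le_trans (by exact_mod_cast h2) hTs⟩, v, ?_, ?_, h5, g1, g2, g3, ?_, ?_,
      g4⟩
    · rintro (r | ⟨j, r⟩)
      · rw [h3 r, Int.cast_natCast, abs_of_nonneg (Nat.cast_nonneg _)]
        calc (x r.1 : ℝ) ≤ Z := (g5 r.1).2
          _ = Z ^ 1 := (pow_one Z).symm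
          _ ≤ Z ^ (H + 2) := pow_le_pow_right₀ hZ1 (by omega)
      · have h7 : ((|v (Sum.inr (j, r))| : ℤ) : ℝ) ≤
            (((N : ℤ) * ((T ^ (N + 1) : ℕ) : ℤ) * V : ℤ) : ℝ) := by exact_mod_cast h4 j r
        rw [Int.cast_abs] at h7
        refine h7.trans ?_
        rw [Int.cast_mul, Int.cast_mul, Int.cast_natCast, Int.cast_natCast]
        have hV0' : (0 : ℝ) ≤ (V : ℝ) := by exact_mod_cast hV0
        calc (N : ℝ) * ((T ^ (N + 1) : ℕ) : ℝ) * V ≤ Z * Z * Z ^ H := by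
              have f1 : ((T ^ (N + 1) : ℕ) : ℝ) ≤ Z := hTs.trans hs1
              gcongr
          _ = Z ^ (H + 2) := by ring
    · intro r
      rw [h3 r]
      exact_mod_cast (g5 r.1).1
    · rw [h6 0, g7]
    · rw [h6 1, g8]
  choose! J mm hmm hvv using hrep
  obtain ⟨L, hL⟩ : ∃ L : ℕ, L = ⌊Z ^ s⌋₊ := ⟨_, rfl⟩
  have hLZ : (L : ℝ) ≤ Z ^ s := by
    rw [hL]
    exact Nat.floor_le (by positivity)
  have hfin := fiber_bound Q (fun q => (J q, mm q))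
    ((Finset.univ : Finset (Finset σ)) ×ˢ Finset.range (L + 1)) (by
      intro q hq
      rw [Finset.mem_product]
      refine ⟨Finset.mem_univ _, ?_⟩
      rw [Finset.mem_range, Nat.lt_succ_iff, hL]
      exact Nat.le_floor (hmm q hq).2) (Z ^ (ε / 4)) (by
      rintro ⟨J0, m0⟩ _
      rcases Nat.eq_zero_or_pos m0 with h0 | h0
      · have hempty : Q.filter (fun q => (J q, mm q) = (J0, m0)) = ∅ := by
          apply Finset.eq_empty_of_forall_notMem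
          intro q hq
          rw [Finset.mem_filter] at hq
          have h1 : mm q = m0 := congrArg Prod.snd hq.2
          have := (hmm q hq.1).1
          omega
        rw [hempty]
        simp only [Finset.card_empty, Nat.cast_zero]
        positivity
      · by_cases hne : (Q.filter (fun q => (J q, mm q) = (J0, m0))).Nonempty
        · obtain ⟨q0, hq0⟩ := hne
          rw [Finset.mem_filter] at hq0
          have h1 : mm q0 = m0 := congrArg Prod.snd hq0.2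
          have h2 : (m0 : ℝ) ≤ Z ^ (H + 2) := by
            rw [← h1]
            calc (mm q0 : ℝ) ≤ Z ^ s := (hmm q0 hq0.1).2
              _ ≤ Z := hs1
              _ = Z ^ 1 := (pow_one Z).symm
              _ ≤ Z ^ (H + 2) := pow_le_pow_right₀ hZ1 (by omega)
          apply fib h0 (hcount J0 (Finset.mem_univ _) m0 h0 h2)
          intro q hq
          rw [Finset.mem_filter] at hq
          have h3 : J q = J0 := congrArg Prod.fst hq.2
          have h4 : mm q = m0 := congrArg Prod.snd hq.2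
          have h5 := hvv q hq.1
          rw [h4] at h5
          rw [h3] at h5
          exact h5
        · rw [Finset.not_nonempty_iff_eq_empty] at hne
          rw [hne]
          simp only [Finset.card_empty, Nat.cast_zero]
          positivity)
  refine hfin.trans ?_
  rw [Finset.card_product, Finset.card_univ, Fintype.card_finset, Finset.card_range, ← hN]
  push_cast
  have hs1' : 1 ≤ Z ^ s := Real.one_le_rpow hZ1 hs0.le
  have h1 : (L : ℝ) + 1 ≤ 2 * Z ^ (ε / 4) := by linarith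
  calc (2 : ℝ) ^ N * ((L : ℝ) + 1) * Z ^ (ε / 4) ≤
        2 ^ N * (2 * Z ^ (ε / 4)) * Z ^ (ε / 4) := by gcongr
    _ = 2 ^ (N + 1) * (Z ^ (ε / 4) * Z ^ (ε / 4)) := by ring
    _ = 2 ^ (N + 1) * Z ^ (ε / 2) := by
        rw [← Real.rpow_add hZ0]
        congr 2
        ring
    _ ≤ Z ^ (ε / 2) * Z ^ (ε / 2) := by gcongr
    _ = Z ^ ε := by
        rw [← Real.rpow_add hZ0]
        congr 1
        ring

end Pool.Agent.Y913.Zm
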