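import Pool.Agent.Y913.Zm.Sc
import Pool.Agent.Y913.Wm.Fn

/-!
Small multiplicative relations and independent subsets.
-/

set_option autoImplicit false

namespace Pool.Agent.Y913.Zm

open Finset

section

variable {σ : Type} [Fintype σ] [DecidableEq σ]

omit [DecidableEq σ] in
/-- multiplicative relations in terms of exponents -/
lemma rel_iff (x : σ → ℕ) (hx : ∀ i, 0 < x i) (κ : σ → ℤ) :
    ∏ i, ((x i : ℕ) : ℚ) ^ κ i = 1 ↔
      ∀ p : ℕ, ∑ i, κ i * (((x i).factorization p : ℕ) : ℤ) = 0 := by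
  obtain ⟨u, hu⟩ : ∃ u : ℕ, u = ∏ i, x i ^ (κ i).toNat := ⟨_, rfl⟩
  obtain ⟨w, hw⟩ : ∃ w : ℕ, w = ∏ i, x i ^ (-κ i).toNat := ⟨_, rfl⟩
  have hu0 : 0 < u := by rw [hu]; exact Finset.prod_pos (fun i _ => pow_pos (hx i) _)
  have hw0 : 0 < w := by rw [hw]; exact Finset.prod_pos (fun i _ => pow_pos (hx i) _)
  have h1 : (∏ i, ((x i : ℕ) : ℚ) ^ κ i) * (w : ℚ) = (u : ℚ) := by
    rw [hu, hw, Nat.cast_prod, Nat.cast_prod, ← Finset.prod_mul_distrib]
    apply Finset.prod_congr rfl
    intro i _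
    have hne : ((x i : ℕ) : ℚ) ≠ 0 := Nat.cast_ne_zero.mpr (hx i).ne'
    rw [Nat.cast_pow, Nat.cast_pow, ← zpow_natCast, ← zpow_natCast, ← zpow_add₀ hne]
    congr 1
    have := Int.toNat_sub_toNat_neg (κ i)
    linarith
  have hf : ∀ (g : σ → ℕ) (p : ℕ), (∏ i, x i ^ g i).factorization p =
      ∑ i, g i * (x i).factorization p := by
    intro g p
    rw [Nat.factorization_prod (fun i _ => pow_ne_zero _ (hx i).ne'), Finsupp.finsetSum_apply]
    apply Finset.sum_congr rfl
    intro i _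
    rw [Nat.factorization_pow, Finsupp.smul_apply, smul_eq_mul]
  have hdiff : ∀ p, ∑ i, κ i * (((x i).factorization p : ℕ) : ℤ) =
      (u.factorization p : ℤ) - w.factorization p := by
    intro p
    rw [hu, hw, hf, hf, Nat.cast_sum, Nat.cast_sum, ← Finset.sum_sub_distrib]
    apply Finset.sum_congr rfl
    intro i _
    rw [Nat.cast_mul, Nat.cast_mul, ← sub_mul, Int.toNat_sub_toNat_neg]
  have hw0' : (w : ℚ) ≠ 0 := Nat.cast_ne_zero.mpr hw0.ne'
  constructor
  · intro h p
    rw [h, one_mul] at h1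
    have h2 : w = u := by exact_mod_cast h1
    rw [hdiff, h2, sub_self]
  · intro h
    have h2 : u = w := by
      apply Nat.eq_of_factorization_eq hu0.ne' hw0.ne'
      intro p
      have h3 := h p
      rw [hdiff] at h3
      omega
    rw [h2] at h1
    exact mul_right_cancel₀ hw0' (by rw [h1, one_mul])

/-- small solutions of linear systems -/
lemma small_sol {α : Type} [Fintype α] [DecidableEq α] (M : α → σ → ℕ) (B : ℕ)
    (hM : ∀ a i, M a i ≤ B) (hc : Fintype.card α < Fintype.card σ) :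
    ∃ t : σ → ℤ, t ≠ 0 ∧ (∀ a, ∑ i, t i * (M a i : ℤ) = 0) ∧
      ∀ i, |t i| ≤ (((Fintype.card σ * B + 1) ^ Fintype.card α : ℕ) : ℤ) := by
  obtain ⟨n, hn⟩ : ∃ n, Fintype.card σ = n := ⟨_, rfl⟩
  obtain ⟨m, hm⟩ : ∃ m, Fintype.card α = m := ⟨_, rfl⟩
  rw [hn, hm] at hc ⊢
  obtain ⟨T, hT⟩ : ∃ T, T = (n * B + 1) ^ m := ⟨_, rfl⟩
  rw [← hT]
  let D : Finset (σ → ℕ) := Fintype.piFinset (fun _ => range (T + 1))
  let R : Finset (α → ℕ) := Fintype.piFinset (fun _ => range (n * B * T + 1))
  have hcard : R.card < D.card := by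
    simp only [R, D, Fintype.card_piFinset, Finset.card_range, Finset.prod_const,
      Finset.card_univ, hn, hm]
    calc (n * B * T + 1) ^ m ≤ ((n * B + 1) * (T + 1)) ^ m := by
          apply Nat.pow_le_pow_left
          nlinarith
      _ = T * (T + 1) ^ m := by rw [mul_pow, ← hT]
      _ < (T + 1) * (T + 1) ^ m := by
          apply Nat.mul_lt_mul_of_pos_right (by omega)
          positivity
      _ = (T + 1) ^ (m + 1) := by rw [pow_succ, mul_comm]
      _ ≤ (T + 1) ^ n := Nat.pow_le_pow_right (by omega) hc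
  obtain ⟨x, hx, y, hy, hxy, hfe⟩ := Finset.exists_ne_map_eq_of_card_lt_of_maps_to hcard
    (f := fun x a => ∑ i, x i * M a i) (by
      intro x hx
      simp only [D, Finset.mem_coe, Fintype.mem_piFinset, Finset.mem_range] at hx
      simp only [R, Finset.mem_coe, Fintype.mem_piFinset, Finset.mem_range]
      intro a
      have h1 : ∑ i, x i * M a i ≤ ∑ _i : σ, T * B := by
        apply Finset.sum_le_sum
        intro i _
        have h2 := hx i
        exact Nat.mul_le_mul (by omega) (hM a i)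
      rw [Finset.sum_const, Finset.card_univ, hn, smul_eq_mul] at h1
      have h3 : n * (T * B) = n * B * T := by ring
      omega)
  simp only [D, Fintype.mem_piFinset, Finset.mem_range] at hx hy
  refine ⟨fun i => (x i : ℤ) - y i, ?_, ?_, ?_⟩
  · intro h
    apply hxy
    funext i
    have := congrFun h i
    simp only [Pi.zero_apply] at this
    omega
  · intro a
    have h1 := congrFun hfe a
    have h2 := congrArg (fun t : ℕ => (t : ℤ)) h1
    simp only [Nat.cast_sum, Nat.cast_mul] at h2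
    have h3 : ∑ i, ((x i : ℤ) - y i) * (M a i : ℤ) =
        ∑ i, (x i : ℤ) * (M a i : ℤ) - ∑ i, (y i : ℤ) * (M a i : ℤ) := by
      rw [← Finset.sum_sub_distrib]
      apply Finset.sum_congr rfl
      intro i _
      ring
    rw [h3, h2, sub_self]
  · intro i
    have h1 := hx i
    have h2 := hy i
    beta_reduce
    rw [abs_le]
    constructor <;> omega

/-- dependent integers have a small relation -/
lemma small_dep (x : σ → ℕ) (hx : ∀ i, 0 < x i) (B : ℕ) (hB : ∀ i, x i < 2 ^ B)
    (hdep : ∃ κ : σ → ℤ, κ ≠ 0 ∧ ∏ i, ((x i : ℕ) : ℚ) ^ κ i = 1) :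
    ∃ t : σ → ℤ, t ≠ 0 ∧ ∏ i, ((x i : ℕ) : ℚ) ^ t i = 1 ∧
      ∀ i, |t i| ≤ (((Fintype.card σ * B + 1) ^ Fintype.card σ : ℕ) : ℤ) := by
  classical
  obtain ⟨κ, hκ0, hκ⟩ := hdep
  rw [rel_iff x hx] at hκ
  let row : ℕ → (σ → ℚ) := fun p i => (((x i).factorization p : ℕ) : ℚ)
  obtain ⟨b, hbS, hspan, hli⟩ := exists_linearIndependent ℚ (Set.range row)
  let f : (σ → ℤ) → ((σ → ℚ) →ₗ[ℚ] ℚ) := fun t =>
    ∑ i, (t i : ℚ) • (LinearMap.proj i : (σ → ℚ) →ₗ[ℚ] ℚ)
  have hf : ∀ t v, f t v = ∑ i, (t i : ℚ) * v i := by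
    intro t v
    simp only [f, LinearMap.sum_apply, LinearMap.smul_apply, LinearMap.proj_apply, smul_eq_mul]
  have hfr : ∀ t p, f t (row p) = ((∑ i, t i * (((x i).factorization p : ℕ) : ℤ) : ℤ) : ℚ) := by
    intro t p
    rw [hf, Int.cast_sum]
    apply Finset.sum_congr rfl
    intro i _
    rw [Int.cast_mul, Int.cast_natCast]
  have hne : Submodule.span ℚ (Set.range row) ≠ ⊤ := by
    intro htop
    have h1 : Submodule.span ℚ (Set.range row) ≤ LinearMap.ker (f κ) := by
      apply Submodule.span_le.mpr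
      rintro _ ⟨p, rfl⟩
      show f κ (row p) = 0
      rw [hfr, hκ p, Int.cast_zero]
    rw [htop] at h1
    apply hκ0
    funext i
    have h2 : f κ (Pi.single i 1) = 0 := h1 (Submodule.mem_top)
    rw [hf, Finset.sum_eq_single i] at h2
    · rw [Pi.single_eq_same, mul_one] at h2
      exact_mod_cast h2
    · intro j _ hj
      rw [Pi.single_eq_of_ne hj, mul_zero]
    · intro h
      exact absurd (Finset.mem_univ _) h
  have hfin : b.Finite := hli.setFinite
  have : Fintype b := hfin.fintype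
  have hcb : Fintype.card b < Fintype.card σ := by
    have h1 := finrank_span_set_eq_card hli
    rw [hspan] at h1
    have h2 := Submodule.finrank_lt hne
    rw [Module.finrank_fintype_fun_eq_card, h1, Set.toFinset_card] at h2
    exact h2
  have hrow : ∀ v : b, ∃ p, row p = v.1 := fun v => hbS v.2
  choose p hp using hrow
  obtain ⟨t, ht0, ht1, ht2⟩ := small_sol (σ := σ) (fun (v : b) i => (x i).factorization (p v)) B (by
    intro v i
    have h1 : (x i).factorization (p v) < B := by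
      by_cases hpp : (p v).Prime
      · by_contra hcon
        push Not at hcon
        have h2 : (p v) ^ (x i).factorization (p v) ≤ x i := Nat.ordProj_le _ (hx i).ne'
        have h3 : 2 ^ B ≤ (p v) ^ (x i).factorization (p v) :=
          (Nat.pow_le_pow_left hpp.two_le _).trans (Nat.pow_le_pow_right hpp.pos hcon)
        have := hB i
        omega
      · rw [Nat.factorization_eq_zero_of_not_prime _ hpp]
        have h2 := hB i
        have h3 := hx i
        by_contra hcon
        have : B = 0 := by omega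
        rw [this, pow_zero] at h2
        omega
    exact h1.le) hcb
  refine ⟨t, ht0, ?_, ?_⟩
  · rw [rel_iff x hx]
    intro p'
    have h1 : Submodule.span ℚ (Set.range row) ≤ LinearMap.ker (f t) := by
      rw [← hspan]
      apply Submodule.span_le.mpr
      intro v hv
      show f t v = 0
      have h2 := ht1 ⟨v, hv⟩
      have h3 : v = row (p ⟨v, hv⟩) := (hp ⟨v, hv⟩).symm
      rw [h3, hfr, h2, Int.cast_zero]
    have h2 : f t (row p') = 0 := h1 (Submodule.subset_span ⟨p', rfl⟩)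
    rw [hfr] at h2
    exact_mod_cast h2
  · intro i
    refine (ht2 i).trans ?_
    exact_mod_cast Nat.pow_le_pow_right (by omega) hcb.le

/-- an independent subset which controls powers of all elements -/
lemma ind_sub (x : σ → ℕ) (hx : ∀ i, 0 < x i) (B : ℕ) (hB : ∀ i, x i < 2 ^ B) :
    ∃ J : Finset σ, (∀ κ : {j // j ∈ J} → ℤ, ∏ r, ((x r.1 : ℕ) : ℚ) ^ κ r = 1 → ∀ r, κ r = 0) ∧
      ∃ (m : σ → ℕ) (κ : σ → {j // j ∈ J} → ℤ),
        (∀ i, 0 < m i ∧ m i ≤ (Fintype.card σ * B + 1) ^ Fintype.card σ) ∧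
        (∀ i r, |κ i r| ≤ (((Fintype.card σ * B + 1) ^ Fintype.card σ : ℕ) : ℤ)) ∧
        ∀ i, ((x i : ℕ) : ℚ) ^ m i = ∏ r, ((x r.1 : ℕ) : ℚ) ^ κ i r := by
  classical
  let Ind : Finset σ → Prop := fun J =>
    ∀ κ : {j // j ∈ J} → ℤ, ∏ r, ((x r.1 : ℕ) : ℚ) ^ κ r = 1 → ∀ r, κ r = 0
  obtain ⟨J, hJ, hmax⟩ := Finset.exists_max_image
    ((Finset.univ : Finset (Finset σ)).filter Ind) (fun J => J.card)
    ⟨∅, by
      rw [Finset.mem_filter]
      refine ⟨Finset.mem_univ _, ?_⟩
      intro κ _ r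
      exact absurd r.2 (Finset.notMem_empty _)⟩
  rw [Finset.mem_filter] at hJ
  obtain ⟨T, hT⟩ : ∃ T : ℕ, T = (Fintype.card σ * B + 1) ^ Fintype.card σ := ⟨_, rfl⟩
  have hT1 : 1 ≤ T := by rw [hT]; exact Nat.one_le_pow _ _ (by omega)
  refine ⟨J, hJ.2, ?_⟩
  rw [← hT]
  have key : ∀ i, ∃ (m : ℕ) (κ : {j // j ∈ J} → ℤ), (0 < m ∧ m ≤ T) ∧ (∀ r, |κ r| ≤ (T : ℤ)) ∧
      ((x i : ℕ) : ℚ) ^ m = ∏ r : {j // j ∈ J}, ((x r.1 : ℕ) : ℚ) ^ κ r := by
    intro i
    by_cases hi : i ∈ J
    · refine ⟨1, Pi.single ⟨i, hi⟩ 1, ⟨one_pos, hT1⟩, ?_, ?_⟩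
      · intro r
        rw [Pi.single_apply]
        split_ifs
        · rw [abs_one]
          exact_mod_cast hT1
        · rw [abs_zero]
          exact_mod_cast Nat.zero_le T
      · rw [Finset.prod_eq_single (⟨i, hi⟩ : {j // j ∈ J})]
        · rw [Pi.single_eq_same, pow_one, zpow_one]
        · intro r _ hr
          rw [Pi.single_eq_of_ne hr, zpow_zero]
        · intro h
          exact absurd (Finset.mem_univ _) h
    · have hnot : ¬ Ind (insert i J) := by
        intro h1
        have h2 := hmax (insert i J) (by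
          rw [Finset.mem_filter]
          exact ⟨Finset.mem_univ _, h1⟩)
        rw [Finset.card_insert_of_notMem hi] at h2
        omega
      have hdep : ∃ κ : {j // j ∈ insert i J} → ℤ, κ ≠ 0 ∧
          ∏ r, ((x r.1 : ℕ) : ℚ) ^ κ r = 1 := by
        simp only [Ind] at hnot
        push Not at hnot
        obtain ⟨κ, h1, r, h2⟩ := hnot
        exact ⟨κ, fun h => h2 (congrFun h r), h1⟩
      obtain ⟨t, ht0, ht1, ht2⟩ := small_dep (σ := {j // j ∈ insert i J}) (fun r => x r.1)
        (fun r => hx r.1) B (fun r => hB r.1) hdep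
      have ht3 : ∀ r, |t r| ≤ (T : ℤ) := by
        intro r
        refine (ht2 r).trans ?_
        have h1 : Fintype.card {j // j ∈ insert i J} ≤ Fintype.card σ :=
          Fintype.card_subtype_le _
        have h2 : (Fintype.card {j // j ∈ insert i J} * B + 1) ^
            Fintype.card {j // j ∈ insert i J} ≤ T := by
          rw [hT]
          calc _ ≤ (Fintype.card σ * B + 1) ^ Fintype.card {j // j ∈ insert i J} := by
                apply Nat.pow_le_pow_left
                have := Nat.mul_le_mul_right B h1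
                omega
            _ ≤ _ := Nat.pow_le_pow_right (by omega) h1
        exact_mod_cast h2
      obtain ⟨t', ht'⟩ : ∃ t' : σ → ℤ, t' = fun j => if h : j ∈ insert i J then t ⟨j, h⟩ else 0 :=
        ⟨_, rfl⟩
      have ht'v : ∀ r : {j // j ∈ insert i J}, t' r.1 = t r := by
        intro r
        rw [ht']
        simp only
        rw [dif_pos r.2]
      have hprod : ((x i : ℕ) : ℚ) ^ t' i * ∏ r : {j // j ∈ J}, ((x r.1 : ℕ) : ℚ) ^ t' r.1 = 1 := by
        have e1 : ((x i : ℕ) : ℚ) ^ t' i * ∏ j ∈ J, ((x j : ℕ) : ℚ) ^ t' j =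
            ∏ j ∈ insert i J, ((x j : ℕ) : ℚ) ^ t' j :=
          (Finset.prod_insert (f := fun j => ((x j : ℕ) : ℚ) ^ t' j) hi).symm
        have e2 : ∏ r : {j // j ∈ J}, ((x r.1 : ℕ) : ℚ) ^ t' r.1 =
            ∏ j ∈ J, ((x j : ℕ) : ℚ) ^ t' j :=
          Finset.prod_coe_sort J (fun j => ((x j : ℕ) : ℚ) ^ t' j)
        have e3 : ∏ r : {j // j ∈ insert i J}, ((x r.1 : ℕ) : ℚ) ^ t' r.1 =
            ∏ j ∈ insert i J, ((x j : ℕ) : ℚ) ^ t' j :=
          Finset.prod_coe_sort (insert i J) (fun j => ((x j : ℕ) : ℚ) ^ t' j)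
        rw [e2, e1, ← e3, ← ht1]
        apply Finset.prod_congr rfl
        intro r _
        rw [ht'v]
      have hbd : ∀ j, |t' j| ≤ (T : ℤ) := by
        intro j
        rw [ht']
        simp only
        split_ifs with h
        · exact ht3 _
        · rw [abs_zero]
          exact_mod_cast Nat.zero_le T
      have hti : t' i ≠ 0 := by
        intro h0
        rw [h0, zpow_zero, one_mul] at hprod
        have h1 := hJ.2 _ hprod
        apply ht0
        funext r
        rw [← ht'v r]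
        rcases Finset.mem_insert.mp r.2 with h2 | h2
        · rw [h2, h0]
          rfl
        · exact h1 ⟨r.1, h2⟩
      have hxi : ((x i : ℕ) : ℚ) ≠ 0 := Nat.cast_ne_zero.mpr (hx i).ne'
      have hinv : ((x i : ℕ) : ℚ) ^ t' i = ∏ r : {j // j ∈ J}, ((x r.1 : ℕ) : ℚ) ^ (-t' r.1) := by
        have h1 : (∏ r : {j // j ∈ J}, ((x r.1 : ℕ) : ℚ) ^ t' r.1) ≠ 0 :=
          Finset.prod_ne_zero_iff.mpr (fun r _ => zpow_ne_zero _
            (Nat.cast_ne_zero.mpr (hx r.1).ne'))
        have h2 : ∏ r : {j // j ∈ J}, ((x r.1 : ℕ) : ℚ) ^ (-t' r.1) =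
            (∏ r : {j // j ∈ J}, ((x r.1 : ℕ) : ℚ) ^ t' r.1)⁻¹ := by
          rw [← Finset.prod_inv_distrib]
          apply Finset.prod_congr rfl
          intro r _
          rw [zpow_neg]
        rw [h2]
        exact eq_inv_of_mul_eq_one_left hprod
      rcases lt_or_gt_of_ne hti with hneg | hpos
      · refine ⟨(-t' i).toNat, fun r => t' r.1, ⟨by omega, ?_⟩, fun r => hbd r.1, ?_⟩
        · have := hbd i
          rw [abs_le] at this
          omega
        · rw [← zpow_natCast, Int.toNat_of_nonneg (by omega), zpow_neg, hinv,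
            ← Finset.prod_inv_distrib]
          apply Finset.prod_congr rfl
          intro r _
          rw [zpow_neg, inv_inv]
      · refine ⟨(t' i).toNat, fun r => -t' r.1, ⟨by omega, ?_⟩, fun r => by
          rw [abs_neg]
          exact hbd r.1, ?_⟩
        · have := hbd i
          rw [abs_le] at this
          omega
        · rw [← zpow_natCast, Int.toNat_of_nonneg (by omega), hinv]
  choose m κ h1 h2 h3 using key
  exact ⟨m, κ, h1, h2, h3⟩

end

end Pool.Agent.Y913.Zm
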