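import Pool.Agent.Y913.Zm.Au
import Pool.Agent.Y913.Vm.Eb

/-!
The first derivatives of the sum of the ratios, and stationary points.
-/

set_option autoImplicit false

namespace Pool.Agent.Y913.Zm

open Finset MvPolynomial Matrix Pool.Agent.Y913.Vm Pool.Agent.Y913.Wm

section

variable {ν π κ : Type} [Fintype ν] [DecidableEq ν] [Fintype π] [DecidableEq π] [Fintype κ]
  [DecidableEq κ] {ι : κ → Vr ν} {F : κ → Rg (π ⊕ Vr ν)} {l : ℕ} [hlf : Fact l.Prime]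

/-- the first derivatives -/
lemma first_rel (hl : 3 ≤ l) {z : π → ℤ} {q : Vr ν → ℤ} {L : ν → ℤ_[l]} {Pu : ν → ℤ_[l]ˣ}
    {Ju Mu : ℤ_[l]ˣ} {u : Fin 2 → ℤ_[l]ˣ} (P : ν → ℕ) (hP : ∀ r, q (Sum.inl r) = P r) (hP0 : ∀ r, 0 < P r)
    (hPl : ∀ r, ¬ l ∣ P r) (hmi : ∀ κ : ν → ℤ, ∏ r, ((P r : ℕ) : ℚ) ^ κ r = 1 → ∀ r, κ r = 0)
    (hPu : ∀ r, (Pu r : ℤ_[l]) = (q (Sum.inl r) : ℤ_[l]))
    (hL : ∀ r, Lo ((Pu r : ℤ_[l]) ^ (l - 1)) (((l : ℤ_[l]) - 1) * L r))
    (hL1 : ∀ r, (l : ℤ_[l]) ∣ (Pu r : ℤ_[l]) ^ (l - 1) - 1)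
    (A : Fin 2 → ℤ) (Cc : ℤ)
    (hA : ∀ j, (Cc : ℤ_[l]) * (u j : ℤ_[l]) = A j)
    (h : ev (pf' ι (pv ι z q L Pu Ju Mu u 0)) (Xi ι F (SU ι)) = 0) (i : Fv ι) :
    A 0 * eval (Sum.elim z q) (gq ι F i.1 0) + A 1 * eval (Sum.elim z q) (gq ι F i.1 1) = 0 ∧
    ∀ r, A 0 * eval (Sum.elim z q) (cq ι F i.1 0 r) +
      A 1 * eval (Sum.elim z q) (cq ι F i.1 1 r) = 0 := by
  classical
  obtain ⟨w, hw⟩ : ∃ w : Fv ι → ℤ, w = Pi.single i 1 := ⟨_, rfl⟩
  obtain ⟨φ, hφ⟩ : ∃ φ, φ = ev (pv ι z q L Pu Ju Mu u w) := ⟨_, rfl⟩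
  have hpv : (fun s => eval (fun i => ((w i : ℤ) : ℤ_[l])) (pf' ι (pv ι z q L Pu Ju Mu u 0) s)) =
      pv ι z q L Pu Ju Mu u w := by
    funext s
    rcases s with s | (s | s) | s | (_ | _) | i
    · exact eval_C _
    · exact eval_C _
    · exact eval_C _
    · exact eval_C _
    · exact eval_C _
    · exact eval_C _
    · show eval _ (X i) = _
      rw [eval_X]
      rfl
  have h0 : φ (Xi ι F (SU ι)) = 0 := by
    rw [hφ, ← hpv, ← eval_pf, h, map_zero]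
  have hem : ∀ G, φ (em ι G) = ((eval (Sum.elim z q) G : ℤ) : ℤ_[l]) := by
    intro G
    rw [hφ]
    exact ev_em _ _ (fun s => rfl) G
  have hφJ : φ (vJ ι) = ((Ju⁻¹ : ℤ_[l]ˣ) : ℤ_[l]) := by
    rw [hφ]
    unfold vJ
    rw [ev_X]
    rfl
  have hφD : ∀ i', φ (vD ι i') = if i' = i then 1 else 0 := by
    intro i'
    rw [hφ]
    unfold vD
    rw [ev_X]
    show ((w i' : ℤ) : ℤ_[l]) = _
    rw [hw, Pi.single_apply]
    split_ifs <;> simp
  have hxi : ∀ k, φ (xi ι F k) = ((Ju⁻¹ : ℤ_[l]ˣ) : ℤ_[l]) *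
      ((eval (Sum.elim z q) (kp Sum.inr ι F i.1 k) : ℤ) : ℤ_[l]) := by
    intro k
    unfold xi
    rw [map_mul, map_sum, hφJ]
    congr 1
    rw [Finset.sum_eq_single i]
    · rw [map_mul, hφD, if_pos rfl, one_mul, hem]
    · intro i' _ hi'
      rw [map_mul, hφD, if_neg hi', zero_mul]
    · intro h
      exact absurd (Finset.mem_univ _) h
  obtain ⟨om, hom⟩ : ∃ om : ν → ℤ, om = fun r => ∏ r' ∈ Finset.univ.erase r, (P r' : ℤ) :=
    ⟨_, rfl⟩
  obtain ⟨W, hW⟩ : ∃ W : ℤ, W = ∏ r, (P r : ℤ) := ⟨_, rfl⟩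
  have hW0 : W ≠ 0 := by
    rw [hW]
    exact Finset.prod_ne_zero_iff.mpr (fun r _ => by
      have := hP0 r
      omega)
  have hWom : ∀ r, (W : ℤ_[l]) * (((Pu r)⁻¹ : ℤ_[l]ˣ) : ℤ_[l]) = (om r : ℤ_[l]) := by
    intro r
    have h1 : W = P r * om r := by
      rw [hW, hom]
      exact (Finset.mul_prod_erase _ _ (Finset.mem_univ r)).symm
    rw [h1]
    push_cast
    have h2 : ((P r : ℕ) : ℤ_[l]) = (Pu r : ℤ_[l]) := by
      rw [hPu, hP]
      push_cast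
      rfl
    rw [h2]
    calc (Pu r : ℤ_[l]) * (om r : ℤ_[l]) * (((Pu r)⁻¹ : ℤ_[l]ˣ) : ℤ_[l]) =
          ((Pu r : ℤ_[l]) * (((Pu r)⁻¹ : ℤ_[l]ˣ) : ℤ_[l])) * (om r : ℤ_[l]) := by ring
      _ = _ := by rw [Units.mul_inv, one_mul]
  have hgv : ∀ j, eval (Sum.elim z q) (gq ι F i.1 j) = ∑ r, q (Sum.inr (j, r)) * om r *
      eval (Sum.elim z q) (kp Sum.inr ι F i.1 (Sum.inl r)) := by
    intro j
    unfold gq omp
    rw [map_sum]
    apply Finset.sum_congr rfl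
    intro r _
    rw [map_mul, map_mul, map_prod, eval_X, hom]
    congr 2
    apply Finset.prod_congr rfl
    intro r' _
    rw [eval_X]
    exact hP r'
  have hXU : ∀ j, (Mu : ℤ_[l]) * φ (Xi ι F (vU ι j)) = (u j : ℤ_[l]) *
      ∑ r, ((q (Sum.inr (j, r)) : ℤ_[l]) * (((Pu r)⁻¹ : ℤ_[l]ˣ) : ℤ_[l]) *
        (((Ju⁻¹ : ℤ_[l]ˣ) : ℤ_[l]) *
          ((eval (Sum.elim z q) (kp Sum.inr ι F i.1 (Sum.inl r)) : ℤ) : ℤ_[l])) +
        L r * (((Ju⁻¹ : ℤ_[l]ˣ) : ℤ_[l]) *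
          ((eval (Sum.elim z q) (kp Sum.inr ι F i.1 (Sum.inr (j, r))) : ℤ) : ℤ_[l]))) := by
    intro j
    have h1 : Xi ι F (vU ι j) = vU ι j * (vM ι * ∑ r, (vA ι j r * vQ ι r * xi ι F (Sum.inl r) +
        vL ι r * xi ι F (Sum.inr (j, r)))) := by
      unfold vU
      rw [Xi_X]
      rfl
    have h2 : φ (vM ι) = ((Mu⁻¹ : ℤ_[l]ˣ) : ℤ_[l]) := by
      rw [hφ]
      unfold vM
      rw [ev_X]
      rfl
    have h3 : φ (vU ι j) = (u j : ℤ_[l]) := by
      rw [hφ]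
      unfold vU
      rw [ev_X]
      rfl
    have h4 : (Mu : ℤ_[l]) * φ (Xi ι F (vU ι j)) = (u j : ℤ_[l]) *
        φ (∑ r, (vA ι j r * vQ ι r * xi ι F (Sum.inl r) + vL ι r * xi ι F (Sum.inr (j, r)))) := by
      rw [h1, map_mul, map_mul, h2, h3]
      calc _ = ((Mu : ℤ_[l]) * ((Mu⁻¹ : ℤ_[l]ˣ) : ℤ_[l])) * ((u j : ℤ_[l]) *
            φ (∑ r, (vA ι j r * vQ ι r * xi ι F (Sum.inl r) +
              vL ι r * xi ι F (Sum.inr (j, r))))) := by ring
        _ = _ := by rw [Units.mul_inv, one_mul]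
    rw [h4, map_sum]
    congr 1
    · apply Finset.sum_congr rfl
      intro r _
      rw [map_add, map_mul, map_mul, map_mul, hxi, hxi]
      have e1 : φ (vA ι j r) = (q (Sum.inr (j, r)) : ℤ_[l]) := by
        rw [hφ]
        unfold vA
        rw [ev_X]
        rfl
      have e2 : φ (vQ ι r) = (((Pu r)⁻¹ : ℤ_[l]ˣ) : ℤ_[l]) := by
        rw [hφ]
        unfold vQ
        rw [ev_X]
        rfl
      have e3 : φ (vL ι r) = L r := by
        rw [hφ]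
        unfold vL
        rw [ev_X]
        rfl
      rw [e1, e2, e3]
  have hj : ∀ j, (Ju : ℤ_[l]) * ((Cc : ℤ_[l]) * ((W : ℤ_[l]) * ((Mu : ℤ_[l]) *
      φ (Xi ι F (vU ι j))))) =
      ((A j * eval (Sum.elim z q) (gq ι F i.1 j) : ℤ) : ℤ_[l]) +
        ∑ r, ((W * (A j * eval (Sum.elim z q) (cq ι F i.1 j r)) : ℤ) : ℤ_[l]) * L r := by
    intro j
    rw [hXU, hgv]
    calc (Ju : ℤ_[l]) * ((Cc : ℤ_[l]) * ((W : ℤ_[l]) *
        ((u j : ℤ_[l]) *
        ∑ r, ((q (Sum.inr (j, r)) : ℤ_[l]) * (((Pu r)⁻¹ : ℤ_[l]ˣ) : ℤ_[l]) *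
        (((Ju⁻¹ : ℤ_[l]ˣ) : ℤ_[l]) *
          ((eval (Sum.elim z q) (kp Sum.inr ι F i.1 (Sum.inl r)) : ℤ) : ℤ_[l])) +
        L r * (((Ju⁻¹ : ℤ_[l]ˣ) : ℤ_[l]) *
          ((eval (Sum.elim z q) (kp Sum.inr ι F i.1 (Sum.inr (j, r))) : ℤ) : ℤ_[l])))))) =
        (A j : ℤ_[l]) * ∑ r, ((Ju : ℤ_[l]) * ((Ju⁻¹ : ℤ_[l]ˣ) : ℤ_[l])) *
          ((q (Sum.inr (j, r)) : ℤ_[l]) * ((W : ℤ_[l]) * (((Pu r)⁻¹ : ℤ_[l]ˣ) : ℤ_[l])) *
          ((eval (Sum.elim z q) (kp Sum.inr ι F i.1 (Sum.inl r)) : ℤ) : ℤ_[l]) +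
          (W : ℤ_[l]) * L r *
          ((eval (Sum.elim z q) (kp Sum.inr ι F i.1 (Sum.inr (j, r))) : ℤ) : ℤ_[l])) := by
          rw [← hA j]
          simp only [Finset.mul_sum]
          apply Finset.sum_congr rfl
          intro r _
          ring
      _ = _ := by
          simp only [Units.mul_inv, one_mul, hWom]
          rw [Finset.sum_add_distrib, mul_add]
          push_cast
          congr 1
          rw [Finset.mul_sum]
          apply Finset.sum_congr rfl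
          intro r _
          unfold cq
          ring
  have hrel : (((A 0 * eval (Sum.elim z q) (gq ι F i.1 0) +
      A 1 * eval (Sum.elim z q) (gq ι F i.1 1) : ℤ)) : ℤ_[l]) +
      ∑ r, ((W * (A 0 * eval (Sum.elim z q) (cq ι F i.1 0 r) +
        A 1 * eval (Sum.elim z q) (cq ι F i.1 1 r)) : ℤ) : ℤ_[l]) * L r = 0 := by
    have h1 : φ (Xi ι F (vU ι 0)) + φ (Xi ι F (vU ι 1)) = 0 := by
      unfold SU at h0
      rw [(Xi ι F).sub, (Xi ι F).one, sub_zero, (Xi ι F).add, map_add] at h0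
      exact h0
    calc _ = (((A 0 * eval (Sum.elim z q) (gq ι F i.1 0) : ℤ) : ℤ_[l]) +
          ∑ r, ((W * (A 0 * eval (Sum.elim z q) (cq ι F i.1 0 r)) : ℤ) : ℤ_[l]) * L r) +
          (((A 1 * eval (Sum.elim z q) (gq ι F i.1 1) : ℤ) : ℤ_[l]) +
          ∑ r, ((W * (A 1 * eval (Sum.elim z q) (cq ι F i.1 1 r)) : ℤ) : ℤ_[l]) * L r) := by
          have e : ∑ r, ((W * (A 0 * eval (Sum.elim z q) (cq ι F i.1 0 r) +
              A 1 * eval (Sum.elim z q) (cq ι F i.1 1 r)) : ℤ) : ℤ_[l]) * L r =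
              ∑ r, ((W * (A 0 * eval (Sum.elim z q) (cq ι F i.1 0 r)) : ℤ) : ℤ_[l]) * L r +
              ∑ r, ((W * (A 1 * eval (Sum.elim z q) (cq ι F i.1 1 r)) : ℤ) : ℤ_[l]) * L r := by
            rw [← Finset.sum_add_distrib]
            apply Finset.sum_congr rfl
            intro r _
            push_cast
            ring
          rw [e]
          push_cast
          ring
      _ = (Ju : ℤ_[l]) * ((Cc : ℤ_[l]) * ((W : ℤ_[l]) * ((Mu : ℤ_[l]) * (φ (Xi ι F (vU ι 0)) +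
          φ (Xi ι F (vU ι 1)))))) := by
          rw [← hj 0, ← hj 1]
          ring
      _ = 0 := by
          rw [h1]
          ring
  have hPuP : ∀ r, (Pu r : ℤ_[l]) = ((P r : ℕ) : ℤ_[l]) := by
    intro r
    rw [hPu, hP]
    push_cast
    rfl
  obtain ⟨h2, h3⟩ := lin_indep hl P hP0 hPl hmi L (fun r => by rw [← hPuP]; exact hL r)
    (fun r => by rw [← hPuP]; exact hL1 r) _ _ hrel
  refine ⟨h2, fun r => ?_⟩
  exact (mul_eq_zero.mp (h3 r)).resolve_left hW0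

/-- ideals stable under the derivation -/
lemma nul_ideal {R : Type} [CommRing R] {D : Dn R} {φ : R →+* ℤ_[l]} (I : Ideal R)
    (hD : ∀ x ∈ I, D x ∈ I) (hφ : ∀ x ∈ I, φ x = 0) {x : R} (hx : x ∈ I) : Nul D φ x := by
  have h : ∀ n, D^[n] x ∈ I := by
    intro n
    induction n with
    | zero => exact hx
    | succ n ih =>
      rw [Function.iterate_succ_apply']
      exact hD _ ih
  intro n
  exact hφ _ (h n)

lemma nul_em {φ : Rg (S2 π ν ι) →+* ℤ_[l]} {x : π ⊕ Vr ν → ℤ}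
    (hem : ∀ G, φ (em ι G) = ((eval x G : ℤ) : ℤ_[l])) {G : Rg (π ⊕ Vr ν)}
    (h : ∀ w, eval x (word Sum.inr ι F w G) = 0) : Nul (Xi ι F) φ (em ι G) := by
  apply nul_ideal (Ideal.span {H | ∃ w, H = em ι (word Sum.inr ι F w G)})
  · intro y hy
    refine Submodule.span_induction ?_ ?_ ?_ ?_ hy
    · rintro _ ⟨w, rfl⟩
      rw [Xi_dd]
      apply Ideal.mul_mem_left
      apply Ideal.sum_mem
      intro i _
      apply Ideal.mul_mem_left
      apply Ideal.subset_span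
      exact ⟨i.1 :: w, rfl⟩
    · rw [(Xi ι F).zero]
      exact Ideal.zero_mem _
    · intro a b _ _ ha hb
      rw [(Xi ι F).add]
      exact Ideal.add_mem _ ha hb
    · intro a b hb' hb
      rw [smul_eq_mul, (Xi ι F).mul]
      exact Ideal.add_mem _ (Ideal.mul_mem_left _ _ hb) (Ideal.mul_mem_right _ _ hb')
  · intro y hy
    have h1 : Ideal.span {H | ∃ w, H = em ι (word Sum.inr ι F w G)} ≤ RingHom.ker φ := by
      apply Ideal.span_le.mpr
      rintro _ ⟨w, rfl⟩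
      show φ _ = 0
      rw [hem, h w, Int.cast_zero]
    exact h1 hy
  · apply Ideal.subset_span
    exact ⟨[], rfl⟩

/-- **stationary points** -/
theorem stat (hl : 3 ≤ l) {z : π → ℤ} {q : Vr ν → ℤ} {L : ν → ℤ_[l]} {Pu : ν → ℤ_[l]ˣ}
    {Ju Mu : ℤ_[l]ˣ} {u : Fin 2 → ℤ_[l]ˣ} {w : Fv ι → ℤ}
    (hPu : ∀ r, (Pu r : ℤ_[l]) = (q (Sum.inl r) : ℤ_[l])) (j : Fin 2)
    (hg : ∀ (i : Fv ι) w, eval (Sum.elim z q) (word Sum.inr ι F w (gq ι F i.1 j)) = 0)
    (hc : ∀ (i : Fv ι) r w, eval (Sum.elim z q) (word Sum.inr ι F w (cq ι F i.1 j r)) = 0) :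
    lie (Xi ι F) (ev (pv ι z q L Pu Ju Mu u w)) (vU ι j) = (u j : ℤ_[l]) := by
  classical
  obtain ⟨φ, hφ⟩ : ∃ φ, φ = ev (pv ι z q L Pu Ju Mu u w) := ⟨_, rfl⟩
  have hem : ∀ G, φ (em ι G) = ((eval (Sum.elim z q) G : ℤ) : ℤ_[l]) := by
    intro G
    rw [hφ]
    exact ev_em _ _ (fun s => rfl) G
  have hnQ : ∀ r, Nul (Xi ι F) φ (vP ι r * vQ ι r - 1) := by
    intro r
    apply nul_Q
    have h1 : φ (vQ ι r) = (((Pu r)⁻¹ : ℤ_[l]ˣ) : ℤ_[l]) := by
      rw [hφ]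
      unfold vQ
      rw [ev_X]
      rfl
    have h2 : φ (vP ι r) = (Pu r : ℤ_[l]) := by
      rw [hφ, hPu]
      unfold vP
      rw [ev_X]
      rfl
    rw [h1, h2]
    exact Units.mul_inv _
  have hprod : ∀ s : Finset ν, Nul (Xi ι F) φ (∏ r ∈ s, (vP ι r * vQ ι r) - 1) := by
    intro s
    induction s using Finset.induction_on with
    | empty =>
      rw [Finset.prod_empty, sub_self]
      exact nul_zero _ _
    | insert r s hr ih =>
      rw [Finset.prod_insert hr]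
      have e : (vP ι r : Rg (S2 π ν ι)) * vQ ι r * ∏ r ∈ s, (vP ι r * vQ ι r) - 1 =
          vP ι r * vQ ι r * (∏ r ∈ s, (vP ι r * vQ ι r) - 1) + (vP ι r * vQ ι r - 1) := by ring
      rw [e]
      exact (ih.mul _).add (hnQ r)
  obtain ⟨Om, hOm⟩ : ∃ Om : Rg (S2 π ν ι), Om = ∏ r, vQ ι r := ⟨_, rfl⟩
  have hOmQ : ∀ r, Nul (Xi ι F) φ (vQ ι r - Om * em ι (omp π r)) := by
    intro r
    have e : vQ ι r - Om * em ι (omp π r) = -(vQ ι r) *
        (∏ r' ∈ Finset.univ.erase r, (vP ι r' * vQ ι r') - 1) := by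
      have h1 : em ι (omp π r) = ∏ r' ∈ Finset.univ.erase r, vP ι r' := by
        unfold omp
        rw [map_prod]
        apply Finset.prod_congr rfl
        intro r' _
        rw [em_X]
        rfl
      rw [h1, hOm, ← Finset.mul_prod_erase Finset.univ _ (Finset.mem_univ r),
        Finset.prod_mul_distrib]
      ring
    rw [e]
    exact (hprod _).mul _
  have hU : Nul (Xi ι F) φ (Xi ι F (vU ι j)) := by
    have h1 : Xi ι F (vU ι j) = vU ι j * (vM ι * ∑ r, (vA ι j r * vQ ι r * xi ι F (Sum.inl r) +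
        vL ι r * xi ι F (Sum.inr (j, r)))) := by
      unfold vU
      rw [Xi_X]
      rfl
    have h2 : ∑ r, (vA ι j r * vQ ι r * xi ι F (Sum.inl r) +
        vL ι r * xi ι F (Sum.inr (j, r))) = vJ ι * ∑ i : Fv ι, vD ι i *
        (∑ r, vA ι j r * em ι (kp Sum.inr ι F i.1 (Sum.inl r)) * (vQ ι r - Om * em ι (omp π r)) +
          (Om * em ι (gq ι F i.1 j) + ∑ r, vL ι r * em ι (cq ι F i.1 j r))) := by
      have h3 : ∀ i : Fv ι, em ι (gq ι F i.1 j) = ∑ r, vA ι j r * em ι (omp π r) *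
          em ι (kp Sum.inr ι F i.1 (Sum.inl r)) := by
        intro i
        unfold gq
        rw [map_sum]
        apply Finset.sum_congr rfl
        intro r _
        rw [map_mul, map_mul, em_X]
        rfl
      have h4 : ∀ i : Fv ι, (∑ r, vA ι j r * em ι (kp Sum.inr ι F i.1 (Sum.inl r)) *
          (vQ ι r - Om * em ι (omp π r)) +
          (Om * em ι (gq ι F i.1 j) + ∑ r, vL ι r * em ι (cq ι F i.1 j r))) =
          ∑ r, (vA ι j r * vQ ι r * em ι (kp Sum.inr ι F i.1 (Sum.inl r)) +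
            vL ι r * em ι (kp Sum.inr ι F i.1 (Sum.inr (j, r)))) := by
        intro i
        rw [h3, Finset.mul_sum, ← Finset.sum_add_distrib, ← Finset.sum_add_distrib]
        apply Finset.sum_congr rfl
        intro r _
        unfold cq
        ring
      simp only [h4, xi, Finset.mul_sum]
      conv_rhs => rw [Finset.sum_comm]
      apply Finset.sum_congr rfl
      intro r _
      rw [← Finset.sum_add_distrib]
      apply Finset.sum_congr rfl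
      intro i _
      ring
    rw [h1, h2]
    apply Nul.mul
    apply Nul.mul
    apply Nul.mul
    apply Nul.sum
    intro i _
    apply Nul.mul
    apply Nul.add
    · apply Nul.sum
      intro r _
      exact (hOmQ r).mul _
    · apply Nul.add
      · exact (nul_em hem (hg i)).mul _
      · apply Nul.sum
        intro r _
        exact (nul_em hem (hc i r)).mul _
  rw [← hφ, lie_const _ _ hl]
  · rw [hφ]
    unfold vU
    rw [ev_X]
    rfl
  · intro n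
    rw [Function.iterate_succ_apply]
    exact hU n

end

end Pool.Agent.Y913.Zm
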