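import Pool.Agent.Y913.Zm.Fn

/-!
Quotients of power products by integers with small valuations.
-/

set_option autoImplicit false

namespace Pool.Agent.Y913.Zm

open Finset Filter Pool.Agent.Y913 Pool.Agent.Y913.Nb Pool.Agent.Y913.Vm Pool.Agent.Y913.Wm

/-- a divisor with small valuations divides the product with truncated exponents -/
lemma dvd_trunc {n : ℕ} {x e : Fin n → ℕ} (hx : ∀ i, 0 < x i) {g M : ℕ} (hg : 0 < g)
    (hgM : ∀ p, g.factorization p ≤ M) (hd : g ∣ ∏ i, x i ^ e i) :
    g ∣ ∏ i, x i ^ min (e i) M := by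
  have hne : ∏ i, x i ^ min (e i) M ≠ 0 :=
    Finset.prod_ne_zero_iff.mpr (fun i _ => pow_ne_zero _ (hx i).ne')
  have hne' : ∏ i, x i ^ e i ≠ 0 :=
    Finset.prod_ne_zero_iff.mpr (fun i _ => pow_ne_zero _ (hx i).ne')
  rw [← Nat.factorization_le_iff_dvd hg.ne' hne]
  intro p
  by_cases hp : p.Prime
  · by_cases hall : ∀ i, p ∣ x i → e i ≤ M
    · have h1 : (∏ i, x i ^ min (e i) M).factorization p = (∏ i, x i ^ e i).factorization p := by
        rw [Nat.factorization_prod (fun i _ => pow_ne_zero _ (hx i).ne'),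
          Nat.factorization_prod (fun i _ => pow_ne_zero _ (hx i).ne')]
        simp only [Nat.factorization_pow, Finsupp.coe_finset_sum, Finset.sum_apply,
          Finsupp.smul_apply, smul_eq_mul]
        apply Finset.sum_congr rfl
        intro i _
        by_cases hpi : p ∣ x i
        · rw [min_eq_left (hall i hpi)]
        · rw [Nat.factorization_eq_zero_of_not_dvd hpi, mul_zero, mul_zero]
      rw [h1]
      exact (Nat.factorization_le_iff_dvd hg.ne' hne').mpr hd p
    · push Not at hall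
      obtain ⟨i, hpi, hi⟩ := hall
      refine (hgM p).trans ?_
      rw [← hp.pow_dvd_iff_le_factorization hne]
      refine (pow_dvd_pow_of_dvd hpi M).trans ?_
      have h1 : x i ^ M ∣ x i ^ min (e i) M := pow_dvd_pow _ (by omega)
      exact h1.trans (Finset.dvd_prod_of_mem (fun i => x i ^ min (e i) M) (Finset.mem_univ i))
  · rw [Nat.factorization_eq_zero_of_not_prime g hp]
    exact Nat.zero_le _

/-- quotients of power products -/
lemma nb_quot {n : ℕ} {Y : ℝ} (hY : 1 ≤ Y) {m g w M : ℕ} (h : NB n Y m) (hm : m = w * g)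
    (hg : 0 < g) (hgM : ∀ p, g.factorization p ≤ M) : NB (n + 1) (Y ^ (n * M + 1)) w := by
  obtain ⟨x, e, hx, hm'⟩ := h
  have hd : g ∣ ∏ i, x i ^ min (e i) M := by
    apply dvd_trunc (fun i => (hx i).1) hg hgM
    rw [← hm', hm]
    exact Dvd.intro_left w rfl
  obtain ⟨w', hw'⟩ := hd
  have hsplit : ∏ i, x i ^ e i = (∏ i, x i ^ (e i - min (e i) M)) * ∏ i, x i ^ min (e i) M := by
    rw [← Finset.prod_mul_distrib]
    apply Finset.prod_congr rfl
    intro i _
    rw [← pow_add]
    congr 1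
    omega
  have hweq : w = (∏ i, x i ^ (e i - min (e i) M)) * w' := by
    have h1 : w * g = (∏ i, x i ^ (e i - min (e i) M)) * w' * g := by
      rw [← hm, hm', hsplit, hw']
      ring
    exact Nat.eq_of_mul_eq_mul_right hg h1
  have hpos : 0 < ∏ i, x i ^ min (e i) M :=
    Finset.prod_pos (fun i _ => pow_pos (hx i).1 _)
  have hw'0 : 0 < w' := by
    rcases Nat.eq_zero_or_pos w' with h0 | h0
    · rw [hw', h0, mul_zero] at hpos
      omega
    · exact h0
  have hYM : Y ≤ Y ^ (n * M + 1) := by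
    calc Y = Y ^ 1 := (pow_one Y).symm
      _ ≤ Y ^ (n * M + 1) := pow_le_pow_right₀ hY (by omega)
  have hw'Y : (w' : ℝ) ≤ Y ^ (n * M + 1) := by
    calc (w' : ℝ) ≤ ((∏ i, x i ^ min (e i) M : ℕ) : ℝ) := by
          rw [hw']
          exact_mod_cast Nat.le_mul_of_pos_left _ hg
      _ = ∏ i, (x i : ℝ) ^ min (e i) M := by push_cast; rfl
      _ ≤ ∏ _i : Fin n, Y ^ M := by
          apply Finset.prod_le_prod (fun i _ => by positivity)
          intro i _
          have h1 : (1 : ℝ) ≤ (x i : ℝ) := by exact_mod_cast (hx i).1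
          calc (x i : ℝ) ^ min (e i) M ≤ (x i : ℝ) ^ M := pow_le_pow_right₀ h1 (min_le_right _ _)
            _ ≤ Y ^ M := pow_le_pow_left₀ (by positivity) (hx i).2 _
      _ = Y ^ (n * M) := by
          rw [Finset.prod_const, Finset.card_univ, Fintype.card_fin, ← pow_mul, mul_comm]
      _ ≤ Y ^ (n * M + 1) := pow_le_pow_right₀ hY (by omega)
  rw [hweq]
  apply NB.mul
  · exact ⟨x, fun i => e i - min (e i) M, fun i => ⟨(hx i).1, (hx i).2.trans hYM⟩, rfl⟩
  · exact ⟨fun _ => w', fun _ => 1, fun _ => ⟨hw'0, hw'Y⟩, by simp⟩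

end Pool.Agent.Y913.Zm
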