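import Pool.Agent.Y913.Zm.Sc
import Pool.Agent.Y913.Zm.Dep
import Pool.Agent.Y913.Vm.Heavy

/-!
Power products of arbitrary bases, written with independent bases and a common denominator.
-/

set_option autoImplicit false

namespace Pool.Agent.Y913.Zm

open Finset Filter Pool.Agent.Y913 Pool.Agent.Y913.Nb Pool.Agent.Y913.Vm Pool.Agent.Y913.Wm

/-- rewriting by independent bases -/
lemma rep {σ : Type} [Fintype σ] [DecidableEq σ] (x : σ → ℕ) (hx : ∀ i, 0 < x i) (B : ℕ)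
    (hB : ∀ i, x i < 2 ^ B) (E : Fin 2 → σ → ℤ) (V : ℤ) (hV : 0 ≤ V)
    (hE : ∀ j s, |E j s| ≤ V) (T : ℕ) (hT : T = (Fintype.card σ * B + 1) ^ Fintype.card σ) :
    ∃ (J : Finset σ) (mm : ℕ) (v : Vr {j // j ∈ J} → ℤ), 0 < mm ∧
      mm ≤ T ^ (Fintype.card σ + 1) ∧
      (∀ r, v (Sum.inl r) = ((x r.1 : ℕ) : ℤ)) ∧
      (∀ j r, |v (Sum.inr (j, r))| ≤
        (Fintype.card σ : ℤ) * ((T ^ (Fintype.card σ + 1) : ℕ) : ℤ) * V) ∧
      (∀ κ : {j // j ∈ J} → ℤ, ∏ r, ((v (Sum.inl r) : ℤ) : ℚ) ^ κ r = 1 → ∀ r, κ r = 0) ∧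
      ∀ j, rt v j = (∏ s, ((x s : ℕ) : ℚ) ^ E j s) ^ mm := by
  obtain ⟨J, hJ, m, κ, hm, hκ, hrel⟩ := ind_sub x hx B hB
  rw [← hT] at hm hκ
  obtain ⟨N, hN⟩ : ∃ N, N = Fintype.card σ := ⟨_, rfl⟩
  rw [← hN]
  have hT1 : 1 ≤ T := by
    rw [hT]
    exact Nat.one_le_pow _ _ (by omega)
  obtain ⟨mm, hmm⟩ : ∃ mm, mm = ∏ s, m s := ⟨_, rfl⟩
  have hmm0 : 0 < mm := by
    rw [hmm]
    exact Finset.prod_pos (fun s _ => (hm s).1)
  have hmmT : mm ≤ T ^ N := by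
    rw [hmm]
    calc ∏ s, m s ≤ ∏ _s : σ, T := Finset.prod_le_prod' (fun s _ => (hm s).2)
      _ = T ^ N := by rw [Finset.prod_const, Finset.card_univ, hN]
  obtain ⟨cof, hcof⟩ : ∃ cof : σ → ℕ, cof = fun s => ∏ s' ∈ Finset.univ.erase s, m s' :=
    ⟨_, rfl⟩
  have hcm : ∀ s, m s * cof s = mm := by
    intro s
    rw [hcof, hmm]
    exact Finset.mul_prod_erase _ _ (Finset.mem_univ s)
  have hcofT : ∀ s, cof s ≤ T ^ N := by
    intro s
    refine le_trans ?_ hmmT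
    rw [← hcm s]
    exact Nat.le_mul_of_pos_left _ (hm s).1
  refine ⟨J, mm, fun k => match k with
    | Sum.inl r => ((x r.1 : ℕ) : ℤ)
    | Sum.inr (j, r) => ∑ s, κ s r * (cof s : ℤ) * E j s, hmm0, ?_, ?_, ?_, ?_, ?_⟩
  · exact hmmT.trans (Nat.pow_le_pow_right hT1 (by omega))
  · intro r
    rfl
  · intro j r
    show |∑ s, κ s r * (cof s : ℤ) * E j s| ≤ _
    calc |∑ s, κ s r * (cof s : ℤ) * E j s| ≤ ∑ s, |κ s r * (cof s : ℤ) * E j s| :=
          Finset.abs_sum_le_sum_abs _ _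
      _ ≤ ∑ _s : σ, ((T ^ (N + 1) : ℕ) : ℤ) * V := by
          apply Finset.sum_le_sum
          intro s _
          rw [abs_mul, abs_mul]
          have h1 : |κ s r| ≤ (T : ℤ) := hκ s r
          have h2 : |(cof s : ℤ)| ≤ ((T ^ N : ℕ) : ℤ) := by
            rw [abs_of_nonneg (Int.natCast_nonneg _)]
            exact_mod_cast hcofT s
          have h3 : |κ s r| * |(cof s : ℤ)| ≤ (T : ℤ) * ((T ^ N : ℕ) : ℤ) :=
            mul_le_mul h1 h2 (abs_nonneg _) (by positivity)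
          have h4 : (T : ℤ) * ((T ^ N : ℕ) : ℤ) = ((T ^ (N + 1) : ℕ) : ℤ) := by
            push_cast
            ring
          rw [h4] at h3
          exact mul_le_mul h3 (hE j s) (abs_nonneg _) (by positivity)
      _ = (N : ℤ) * ((T ^ (N + 1) : ℕ) : ℤ) * V := by
          rw [Finset.sum_const, Finset.card_univ, ← hN, nsmul_eq_mul]
          ring
  · intro κ' h1
    apply hJ κ'
    rw [← h1]
    apply Finset.prod_congr rfl
    intro r _
    show _ = (((((x r.1 : ℕ) : ℤ)) : ℚ)) ^ κ' r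
    rw [Int.cast_natCast]
  · intro j
    unfold rt
    have hne : ∀ s, ((x s : ℕ) : ℚ) ≠ 0 := fun s => Nat.cast_ne_zero.mpr (hx s).ne'
    have e1 : (∏ s, ((x s : ℕ) : ℚ) ^ E j s) ^ mm =
        ∏ s, ∏ r : {j // j ∈ J}, ((x r.1 : ℕ) : ℚ) ^ (κ s r * (cof s : ℤ) * E j s) := by
      rw [← Finset.prod_pow]
      apply Finset.prod_congr rfl
      intro s _
      have f1 : (((x s : ℕ) : ℚ) ^ E j s) ^ mm =
          ((((x s : ℕ) : ℚ) ^ m s) ^ (cof s : ℤ)) ^ E j s := by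
        rw [← zpow_natCast, ← zpow_natCast, ← zpow_mul, ← zpow_mul, ← zpow_mul, ← hcm s]
        congr 1
        push_cast
        ring
      rw [f1, hrel s, ← Finset.prod_zpow, ← Finset.prod_zpow]
      apply Finset.prod_congr rfl
      intro r _
      rw [← zpow_mul, ← zpow_mul, mul_assoc]
    rw [e1, Finset.prod_comm]
    apply Finset.prod_congr rfl
    intro r _
    show (((((x r.1 : ℕ) : ℤ)) : ℚ)) ^ (∑ s, κ s r * (cof s : ℤ) * E j s) = _
    rw [Int.cast_natCast]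
    have hG : ∀ S : Finset σ, ((x r.1 : ℕ) : ℚ) ^ (∑ s ∈ S, κ s r * (cof s : ℤ) * E j s) =
        ∏ s ∈ S, ((x r.1 : ℕ) : ℚ) ^ (κ s r * (cof s : ℤ) * E j s) := by
      intro S
      induction S using Finset.induction_on with
      | empty => simp
      | insert a S ha ih => rw [Finset.sum_insert ha, Finset.prod_insert ha, zpow_add₀ (hne r.1), ih]
    exact hG Finset.univ

end Pool.Agent.Y913.Zm
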