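import Pool.Agent.Y913.Zm.Nv
import Pool.Agent.Y913.Wm.Sc

/-!
The statement proved by induction: bases and exponents are both variables; the exponents have a
common denominator.
-/

set_option autoImplicit false

namespace Pool.Agent.Y913.Zm

open Finset MvPolynomial Matrix Filter Pool.Agent.Y913.Vm Pool.Agent.Y913.Wm

/-- the admissible vectors -/
def Gd {ν : Type} [Fintype ν] (C0 : ℕ) (X : ℝ) (K mm A B : ℕ) (q : Vr ν → ℤ) : Prop :=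
  (∀ k, |(q k : ℝ)| ≤ X ^ C0) ∧ (∀ r, 0 < q (Sum.inl r)) ∧
    (∀ κ : ν → ℤ, ∏ r, ((q (Sum.inl r) : ℤ) : ℚ) ^ κ r = 1 → ∀ r, κ r = 0) ∧
    0 < A ∧ 0 < B ∧ Nat.Coprime A B ∧ rt q 0 = ((A : ℚ) / ((A + B : ℕ) : ℚ)) ^ mm ∧
      rt q 1 = ((B : ℚ) / ((A + B : ℕ) : ℚ)) ^ mm ∧ X ^ K ≤ ((A + B : ℕ) : ℝ)

lemma Gd.mono {ν : Type} [Fintype ν] {C0 mm A B : ℕ} {X : ℝ} (hX : 1 ≤ X) {K K' : ℕ}
    (hK : K ≤ K') {q : Vr ν → ℤ} (h : Gd C0 X K' mm A B q) : Gd C0 X K mm A B q := by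
  obtain ⟨h1, h2, h3, h4, h5, h6, h7, h8, h9⟩ := h
  exact ⟨h1, h2, h3, h4, h5, h6, h7, h8, (pow_le_pow_right₀ hX hK).trans h9⟩

/-- the bound for a system of equations -/
def Bq {ν π κ : Type} [Fintype ν] [DecidableEq ν] [Fintype κ] [DecidableEq κ]
    (C0 : ℕ) (ι : κ → Vr ν) (F : κ → Rg (π ⊕ Vr ν)) (D : ℕ) (ε : ℝ) (K : ℕ) (X : ℝ) : Prop :=
  ∀ mm : ℕ, 0 < mm → (mm : ℝ) ≤ X ^ C0 → ∀ A B : (Vr ν → ℤ) → ℕ,
  ∀ z : π → ℤ, (∀ i, |(z i : ℝ)| ≤ X ^ D) → ∀ E : Finset (Vr ν → ℤ),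
    (∀ q ∈ E, Gd C0 X K mm (A q) (B q) q ∧
      (∀ a, eval (Sum.elim z q) (F a) = 0) ∧ eval (Sum.elim z q) (jd Sum.inr ι F) ≠ 0) →
    Sp E → (E.card : ℝ) ≤ X ^ ε

/-- the statement for `s` equations -/
def Sq (ν : Type) [Fintype ν] [DecidableEq ν] (C0 s : ℕ) : Prop :=
  ∀ (π κ : Type) [Fintype π] [DecidableEq π] [Fintype κ] [DecidableEq κ], Fintype.card κ = s →
    ∀ (ι : κ → Vr ν) (F : κ → Rg (π ⊕ Vr ν)) (D : ℕ) (ε : ℝ), 0 < ε →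
    ∃ K : ℕ, ∀ᶠ X : ℝ in atTop, Bq C0 ι F D ε K X

lemma Bq.mono {ν π κ : Type} [Fintype ν] [DecidableEq ν] [Fintype κ] [DecidableEq κ]
    {C0 : ℕ} {ι : κ → Vr ν} {F : κ → Rg (π ⊕ Vr ν)} {D : ℕ} {ε : ℝ} {K K' : ℕ}
    {X : ℝ} (hX : 1 ≤ X) (hK : K ≤ K') (h : Bq C0 ι F D ε K X) : Bq C0 ι F D ε K' X := by
  intro mm hmm hmm2 A B z hz E hE hS
  exact h mm hmm hmm2 A B z hz E (fun q hq => ⟨(hE q hq).1.mono hX hK, (hE q hq).2⟩) hS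

section

variable {l : ℕ} [hlf : Fact l.Prime] {ν : Type} [Fintype ν]

/-- the roots as units -/
lemma uv {C0 K mm A B : ℕ} {X : ℝ} {q : Vr ν → ℤ} (hmm : 0 < mm) (hg : Gd C0 X K mm A B q)
    (Pu : ν → ℤ_[l]ˣ) (hPu : ∀ r, (Pu r : ℤ_[l]) = (q (Sum.inl r) : ℤ_[l])) :
    ∃ u : Fin 2 → ℤ_[l]ˣ, (∀ j, u j ^ mm = ∏ r, Pu r ^ q (Sum.inr (j, r))) ∧
      (((A + B : ℕ) : ℤ) : ℤ_[l]) * (u 0 : ℤ_[l]) = ((A : ℤ) : ℤ_[l]) ∧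
      (((A + B : ℕ) : ℤ) : ℤ_[l]) * (u 1 : ℤ_[l]) = ((B : ℤ) : ℤ_[l]) ∧
      (u 0 : ℤ_[l]) + u 1 = 1 ∧ ¬ (l : ℤ) ∣ ((A + B : ℕ) : ℤ) := by
  obtain ⟨g1, g2, g3, g4, g5, g6, g7, g8, g9⟩ := hg
  obtain ⟨x, hx⟩ : ∃ x : Fin 2 → ℚ, x = fun j => (((![A, B] j : ℕ)) : ℚ) / ((A + B : ℕ) : ℚ) :=
    ⟨_, rfl⟩
  have hxr : ∀ j, rt q j = x j ^ mm := by
    intro j
    rw [hx]
    fin_cases j
    · exact g7
    · exact g8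
  have hnorm : ∀ j, ‖((x j : ℚ) : ℚ_[l])‖ = 1 := by
    intro j
    have h1 := coe_rt q Pu hPu j
    have h2 : ‖((rt q j : ℚ) : ℚ_[l])‖ = 1 := by
      rw [← h1]
      exact PadicInt.norm_units _
    rw [hxr, Rat.cast_pow, norm_pow] at h2
    exact (pow_eq_one_iff_of_nonneg (norm_nonneg _) hmm.ne').mp h2
  obtain ⟨u, hu⟩ : ∃ u : Fin 2 → ℤ_[l]ˣ, u = fun j => PadicInt.mkUnits (hnorm j) := ⟨_, rfl⟩
  have hux : ∀ j, ((u j : ℤ_[l]) : ℚ_[l]) = ((x j : ℚ) : ℚ_[l]) := by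
    intro j
    rw [hu]
    exact PadicInt.mkUnits_eq (hnorm j)
  have hcast : Function.Injective (fun x : ℤ_[l] => (x : ℚ_[l])) := Subtype.coe_injective
  have hS : ((A + B : ℕ) : ℚ) ≠ 0 := Nat.cast_ne_zero.mpr (by omega)
  have hx0 : ((A + B : ℕ) : ℚ) * x 0 = A := by
    rw [hx]
    exact mul_div_cancel₀ _ hS
  have hx1 : ((A + B : ℕ) : ℚ) * x 1 = B := by
    rw [hx]
    exact mul_div_cancel₀ _ hS
  have h0 : (((A + B : ℕ) : ℤ) : ℤ_[l]) * (u 0 : ℤ_[l]) = ((A : ℤ) : ℤ_[l]) := by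
    apply hcast
    show ((((((A + B : ℕ) : ℤ) : ℤ_[l]) * (u 0 : ℤ_[l]) : ℤ_[l])) : ℚ_[l]) = _
    rw [PadicInt.coe_mul, hux]
    have h6 := congrArg (fun t : ℚ => (t : ℚ_[l])) hx0
    simp only [Rat.cast_mul, Rat.cast_natCast] at h6
    push_cast at h6 ⊢
    exact h6
  have h1 : (((A + B : ℕ) : ℤ) : ℤ_[l]) * (u 1 : ℤ_[l]) = ((B : ℤ) : ℤ_[l]) := by
    apply hcast
    show ((((((A + B : ℕ) : ℤ) : ℤ_[l]) * (u 1 : ℤ_[l]) : ℤ_[l])) : ℚ_[l]) = _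
    rw [PadicInt.coe_mul, hux]
    have h6 := congrArg (fun t : ℚ => (t : ℚ_[l])) hx1
    simp only [Rat.cast_mul, Rat.cast_natCast] at h6
    push_cast at h6 ⊢
    exact h6
  refine ⟨u, ?_, h0, h1, ?_, ?_⟩
  · intro j
    apply Units.ext
    apply hcast
    have h2 := coe_rt q Pu hPu j
    show (((u j ^ mm : ℤ_[l]ˣ) : ℤ_[l]) : ℚ_[l]) =
      (((∏ r, Pu r ^ q (Sum.inr (j, r)) : ℤ_[l]ˣ) : ℤ_[l]) : ℚ_[l])
    rw [h2, hxr, Units.val_pow_eq_pow_val, PadicInt.coe_pow, hux, Rat.cast_pow]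
  · apply hcast
    show (((u 0 : ℤ_[l]) + (u 1 : ℤ_[l]) : ℤ_[l]) : ℚ_[l]) = ((1 : ℤ_[l]) : ℚ_[l])
    rw [PadicInt.coe_add, hux, hux, PadicInt.coe_one, ← Rat.cast_add]
    have h6 : x 0 + x 1 = 1 := by
      rw [hx]
      show ((A : ℕ) : ℚ) / ((A + B : ℕ) : ℚ) + ((B : ℕ) : ℚ) / ((A + B : ℕ) : ℚ) = 1
      rw [← add_div, ← Nat.cast_add]
      exact div_self hS
    rw [h6, Rat.cast_one]
  · intro hl
    have hdl : (l : ℤ_[l]) ∣ (((A + B : ℕ) : ℤ) : ℤ_[l]) := by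
      have := (PadicInt.pow_p_dvd_int_iff (p := l) 1 ((A + B : ℕ) : ℤ)).mpr (by
        rw [pow_one]
        exact hl)
      rwa [pow_one] at this
    have hA : (l : ℤ) ∣ (A : ℤ) := by
      have h2 : (l : ℤ_[l]) ^ 1 ∣ ((A : ℤ) : ℤ_[l]) := by
        rw [pow_one, ← h0]
        exact hdl.mul_right _
      have := (PadicInt.pow_p_dvd_int_iff (p := l) 1 (A : ℤ)).mp h2
      rwa [pow_one] at this
    have hB : (l : ℤ) ∣ (B : ℤ) := by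
      have h2 : (l : ℤ_[l]) ^ 1 ∣ ((B : ℤ) : ℤ_[l]) := by
        rw [pow_one, ← h1]
        exact hdl.mul_right _
      have := (PadicInt.pow_p_dvd_int_iff (p := l) 1 (B : ℤ)).mp h2
      rwa [pow_one] at this
    have h3 := Nat.dvd_gcd (Int.natCast_dvd_natCast.mp hA) (Int.natCast_dvd_natCast.mp hB)
    rw [g6] at h3
    exact hlf.out.one_lt.ne' (Nat.dvd_one.mp h3)

/-- congruent data give congruent roots -/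
lemma uv_cong {S A S' A' : ℤ} {x x' : ℤ_[l]} (h : (S : ℤ_[l]) * x = A)
    (h' : (S' : ℤ_[l]) * x' = A') (hS : ¬ (l : ℤ) ∣ S) (hA : (l : ℤ) ∣ A' - A)
    (hSS : (l : ℤ) ∣ S' - S) : (l : ℤ_[l]) ∣ x' - x := by
  obtain ⟨w, hw⟩ := unit_int (l := l) hS
  have h1 : (l : ℤ_[l]) ∣ (S : ℤ_[l]) * (x' - x) := by
    have e : (S : ℤ_[l]) * (x' - x) = ((A' - A : ℤ) : ℤ_[l]) - ((S' - S : ℤ) : ℤ_[l]) * x' := by
      push_cast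
      rw [← h, ← h']
      ring
    rw [e]
    obtain ⟨s, hs⟩ := hA
    obtain ⟨t, ht⟩ := hSS
    rw [hs, ht]
    push_cast
    exact dvd_sub (dvd_mul_right _ _) ((dvd_mul_right _ _).mul_right _)
  rw [← hw] at h1
  exact (Units.dvd_mul_left).mp h1

end

end Pool.Agent.Y913.Zm
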