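import Pool.Agent.Y913.Zm.Sa

/-!
One residue class of transverse points.
-/

set_option autoImplicit false

namespace Pool.Agent.Y913.Zm

open Finset MvPolynomial Matrix Filter Pool.Agent.Y913.Vm Pool.Agent.Y913.Wm

/-- **one residue class** -/
theorem class2 {ν : Type} [Fintype ν] [DecidableEq ν] {π κ : Type} [Fintype π] [DecidableEq π]
    [Fintype κ] [DecidableEq κ] {C0 : ℕ} (hst : Sq ν C0 (Fintype.card κ + 1))
    (ι : κ → Vr ν) (hι : Function.Injective ι) (F : κ → Rg (π ⊕ Vr ν)) (D : ℕ) (ε ε2 : ℝ)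
    (hε : 0 < ε) (hε2 : 0 < ε2) :
    ∃ K : ℕ, ∀ᶠ X : ℝ in atTop, ∀ mm : ℕ, 0 < mm → (mm : ℝ) ≤ X ^ C0 →
      ∀ A B : (Vr ν → ℤ) → ℕ, ∀ z : π → ℤ, (∀ i, |(z i : ℝ)| ≤ X ^ D) →
      ∀ l : ℕ, l.Prime → ¬ (l : ℤ) ∣ mm →
      X ^ (ε2 / 2) < l → (l : ℝ) ≤ X ^ ε2 → ∀ E : Finset (Vr ν → ℤ),
      (∀ q ∈ E, Gd C0 X K mm (A q) (B q) q ∧
      (∀ a, eval (Sum.elim z q) (F a) = 0) ∧ eval (Sum.elim z q) (jd Sum.inr ι F) ≠ 0 ∧
      ∃ t, eval (Sum.elim z q) (ga ι F t) ≠ 0) →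
      (∀ q ∈ E, ¬ (l : ℤ) ∣ eval (Sum.elim z q) (jd Sum.inr ι F)) →
      (∀ q ∈ E, ∀ r, ¬ (l : ℤ) ∣ q (Sum.inl r)) →
      (∀ q ∈ E, ∀ q' ∈ E, ∀ k, (l : ℤ) ∣ q' k - q k) →
      (∀ q ∈ E, ∀ q' ∈ E, ∀ k, ((l : ℤ) - 1) ∣ q' k - q k) →
      (∀ q ∈ E, ∀ q' ∈ E, (l : ℤ) ∣ (A q' : ℤ) - A q ∧ (l : ℤ) ∣ (B q' : ℤ) - B q) →
      Sp E → (E.card : ℝ) ≤ X ^ ε := by
  classical
  obtain ⟨n, hn⟩ : ∃ n, Fintype.card (Fv ι) = n := ⟨_, rfl⟩
  obtain ⟨m0, hm0⟩ := stab (Xi ι F) (SU ι)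
  obtain ⟨c, hc1, hc2⟩ : ∃ c : ℕ, m0 + 1 ≤ c ∧ ((C0 * n + 1 : ℕ) : ℝ) ≤ c * (ε2 / 2) := by
    obtain ⟨c, hc⟩ := exists_nat_ge (((C0 * n + 1 : ℕ) : ℝ) / (ε2 / 2))
    refine ⟨c + (m0 + 1), by omega, ?_⟩
    rw [div_le_iff₀ (by positivity)] at hc
    push_cast at hc ⊢
    have h1 : 0 ≤ ((m0 : ℝ) + 1) * (ε2 / 2) := by positivity
    linarith
  obtain ⟨h, hh⟩ := exists_nat_ge (ε2 * (m0 * (c : ℝ) ^ n))
  obtain ⟨d, hd⟩ : ∃ d : ℕ, d = h + 1 := ⟨_, rfl⟩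
  have hcd : 0 < c * d := by
    rw [hd]
    apply Nat.mul_pos <;> omega
  -- sizes of the obstructions
  have hsz : ∃ D' : ℕ, ∀ X : ℝ, 2 ≤ X → ∀ (z : π → ℤ) (q : Vr ν → ℤ), (∀ i, |(z i : ℝ)| ≤ X ^ D) →
      (∀ k, |(q k : ℝ)| ≤ X ^ C0) → ∀ t, |((eval (Sum.elim z q) (ga ι F t) : ℤ) : ℝ)| ≤
        X ^ D' := by
    choose D0 h2 using fun t => size2 (ga ι F t) D C0
    refine ⟨Finset.univ.sup D0, ?_⟩
    intro X hX z q hz hq t
    exact (h2 t X hX z q hz hq).trans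
      (pow_le_pow_right₀ (by linarith) (Finset.le_sup (Finset.mem_univ t)))
  obtain ⟨D', hsz⟩ := hsz
  -- the finite set of new equations
  have hfin : {w : List (Vr ν) | w.length ≤ n * d}.Finite := List.finite_length_le (Vr ν) _
  obtain ⟨W, hW⟩ : ∃ W : Finset (List (Vr ν) × Vr ν), W = hfin.toFinset ×ˢ Finset.univ := ⟨_, rfl⟩
  obtain ⟨K, hev⟩ := unif2 W (fun t K X => Bq C0
    (Sum.elim ι (fun _ : Unit => t.2)) (Sum.elim (fun a => rename (Sum.map Sum.inl id) (F a))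
      (fun _ : Unit => pw Sum.inr t.1 (gen π ι d))) (max D h) (ε / 2) K X)
    (fun t K K' X hX hK hb => hb.mono hX hK)
    (fun t _ => hst (π ⊕ (Fv ι → Fin d)) (κ ⊕ Unit) (by rw [Fintype.card_sum, Fintype.card_unit])
      _ _ _ _ (by positivity))
  refine ⟨max K (D' + 1), ?_⟩
  have hev2 : ∀ᶠ X : ℝ in atTop, (d : ℝ) ^ n ≤ X := eventually_ge_atTop _
  have hev3 : ∀ᶠ X : ℝ in atTop, (W.card : ℝ) ≤ X ^ (ε / 2) :=
    (tendsto_rpow_atTop (by positivity)).eventually_ge_atTop _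
  have hev4 : ∀ᶠ X : ℝ in atTop, ((2 * (c * d) + 3 : ℕ) : ℝ) ≤ X ^ (ε2 / 2) :=
    (tendsto_rpow_atTop (by positivity)).eventually_ge_atTop _
  filter_upwards [hev, hev2, hev3, hev4, eventually_gt_atTop (2 : ℝ)] with X h1 h2 h3 h4 hX mm hmm
    hmmX A B z hz l hlp hlm hl1 hl2 E hE hEJ hEP hcl hcl2 hcl3 hS
  have hX0 : 0 < X := by linarith
  have hX1 : 1 ≤ X := by linarith
  rcases Finset.eq_empty_or_nonempty E with hE0 | ⟨q0, hq0⟩
  · rw [hE0]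
    simp only [Finset.card_empty, Nat.cast_zero]
    positivity
  have hll : 2 * (c * d) + 3 ≤ l := by
    have : ((2 * (c * d) + 3 : ℕ) : ℝ) ≤ (l : ℝ) := h4.trans hl1.le
    exact_mod_cast this
  have hl3 : 3 ≤ l := by omega
  have hlf : Fact l.Prime := ⟨hlp⟩
  obtain ⟨L, Pu, Ju, hJu, hPu, hL, hL1⟩ := data hl3 (hEJ q0 hq0) (hEP q0 hq0)
  obtain ⟨hg0, hF0, hJ0, t0, ht0⟩ := hE q0 hq0
  obtain ⟨Mu, hMu⟩ := unit_nat (l := l) (m := mm) (by
    intro h5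
    exact hlm (by exact_mod_cast h5))
  obtain ⟨u, hu, hu0, hu1, -, huS⟩ := uv hmm hg0 Pu hPu
  -- the derivative does not vanish
  have hne : ev (pf' ι (pv ι z q0 L Pu Ju Mu u 0)) (Xi ι F (SU ι)) ≠ 0 := by
    intro hz0
    obtain ⟨g1, g2, g3, g4, g5, g6, g7, g8, g9⟩ := hg0
    have hP : ∀ r, q0 (Sum.inl r) = ((q0 (Sum.inl r)).toNat : ℕ) := fun r =>
      (Int.toNat_of_nonneg (g2 r).le).symm
    have hfr := first_rel (ι := ι) (F := F) hl3 (z := z) (q := q0) (L := L) (Pu := Pu) (Ju := Ju) (Mu := Mu) (u := u)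
      (fun r => (q0 (Sum.inl r)).toNat) hP
      (fun r => by have := g2 r; omega)
      (fun r hr => hEP q0 hq0 r (by
        rw [hP r]
        exact_mod_cast hr))
      (by
        intro κ' hκ
        apply g3 κ'
        rw [← hκ]
        apply Finset.prod_congr rfl
        intro r _
        congr 1
        exact_mod_cast congrArg (fun t : ℤ => (t : ℚ)) (hP r)) hPu hL hL1
      ![(A q0 : ℤ), (B q0 : ℤ)] ((A q0 + B q0 : ℕ) : ℤ) (by
        intro j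
        fin_cases j
        · exact hu0
        · exact hu1) hz0
    have hbad : ∀ t : Fv ι × Fin 2 × Option ν, eval (Sum.elim z q0) (ga ι F (t.1, 0, t.2.2)) * A q0 +
        eval (Sum.elim z q0) (ga ι F (t.1, 1, t.2.2)) * B q0 = 0 := by
      rintro ⟨i, j, o⟩
      obtain ⟨f1, f2⟩ := hfr i
      rcases o with _ | r
      · show eval (Sum.elim z q0) (gq ι F i.1 0) * A q0 +
          eval (Sum.elim z q0) (gq ι F i.1 1) * B q0 = 0
        have : (A q0 : ℤ) * eval (Sum.elim z q0) (gq ι F i.1 0) +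
          (B q0 : ℤ) * eval (Sum.elim z q0) (gq ι F i.1 1) = 0 := f1
        linarith
      · show eval (Sum.elim z q0) (cq ι F i.1 0 r) * A q0 +
          eval (Sum.elim z q0) (cq ι F i.1 1 r) * B q0 = 0
        have : (A q0 : ℤ) * eval (Sum.elim z q0) (cq ι F i.1 0 r) +
          (B q0 : ℤ) * eval (Sum.elim z q0) (cq ι F i.1 1 r) = 0 := f2 r
        linarith
    have hn0 := nonvan (g0 := eval (Sum.elim z q0) (ga ι F (t0.1, 0, t0.2.2)))
      (g1 := eval (Sum.elim z q0) (ga ι F (t0.1, 1, t0.2.2))) (A := (A q0 : ℤ)) (B := (B q0 : ℤ))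
      (M := X ^ D') (by exact_mod_cast g4) (by exact_mod_cast g5)
      (Nat.isCoprime_iff_coprime.mpr g6) (by
        obtain ⟨i, j, o⟩ := t0
        fin_cases j
        · exact Or.inl ht0
        · exact Or.inr ht0) (hsz X hX.le z q0 hz g1 _) (hsz X hX.le z q0 hz g1 _) (by
        have h5 : X ^ (D' + 1) ≤ ((A q0 + B q0 : ℕ) : ℝ) :=
          (pow_le_pow_right₀ hX1 (le_max_right _ _)).trans g9
        rw [pow_succ] at h5
        have h6 : 0 < X ^ D' := by positivity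
        push_cast at h5 ⊢
        nlinarith)
    exact hn0 (hbad t0)
  have hpig := pig2 (n := n) (m0 := m0) hX1 hl2 hh (d := d) (by omega)
  obtain ⟨G, hG0, hGH, hG⟩ := aux2 (ι := ι) (F := F) hl3 hι hm0 (z := z) (q := q0) (L := L)
    (Pu := Pu) (Ju := Ju) (Mu := Mu) (u := u) hMu hu hJu hF0 hPu hL hL1 ⟨1, by rw [Function.iterate_one]; exact hne⟩
    (c * d) d ⌊X ^ h⌋₊ (by
      have : c * 1 ≤ c * d := Nat.mul_le_mul_left c (by omega)
      omega) (by omega) (by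
      rw [hn]
      exact hpig)
  -- the auxiliary polynomial vanishes on the class
  have hzero : ∀ q ∈ E, ∑ m, G m * ∏ r : Fv ι, q r ^ (m r : ℕ) = 0 := by
    intro q hq
    obtain ⟨hg, hF, hJ, -⟩ := hE q hq
    apply sum_small2 hX1 hl1 hc2 (by omega) hcd h2 hn G hGH q hg.1
    apply hG q hF (hcl q0 hq0 q hq) (fun j r => hcl2 q0 hq0 q hq _)
    intro Pu' hPu'
    obtain ⟨u', hu', hu0', hu1', hus', -⟩ := uv hmm hg Pu' hPu'
    have hc3 := hcl3 q0 hq0 q hq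
    have hsum : (l : ℤ) ∣ ((A q + B q : ℕ) : ℤ) - ((A q0 + B q0 : ℕ) : ℤ) := by
      have := dvd_add hc3.1 hc3.2
      have e : (A q : ℤ) - A q0 + ((B q : ℤ) - B q0) =
          ((A q + B q : ℕ) : ℤ) - ((A q0 + B q0 : ℕ) : ℤ) := by
        push_cast
        ring
      rwa [e] at this
    refine ⟨u', hu', ?_, hus'⟩
    intro j
    fin_cases j
    · exact uv_cong hu0 hu0' huS hc3.1 hsum
    · exact uv_cong hu1 hu1' huS hc3.2 hsum
  -- the new equations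
  have hnew : ∀ q ∈ E, ∃ t ∈ W, (∀ a, eval (pt z G q) ((Sum.elim
      (fun a => rename (Sum.map Sum.inl id) (F a))
        (fun _ : Unit => pw Sum.inr t.1 (gen π ι d))) a) = 0) ∧
      eval (pt z G q) (jd Sum.inr (Sum.elim ι (fun _ : Unit => t.2))
        (Sum.elim (fun a => rename (Sum.map Sum.inl id) (F a))
        (fun _ : Unit => pw Sum.inr t.1 (gen π ι d)))) ≠ 0 := by
    intro q hq
    obtain ⟨-, hF, hJ, -⟩ := hE q hq
    obtain ⟨w, t, hw, h4, h5⟩ := new_rel ι F d z q hJ hF G hG0 (hzero q hq)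
    refine ⟨(w, t), ?_, h4, h5⟩
    rw [hW, Finset.mem_product]
    refine ⟨?_, Finset.mem_univ _⟩
    rw [Set.Finite.mem_toFinset]
    show w.length ≤ n * d
    rw [← hn]
    exact hw
  have hne2 : Nonempty (List (Vr ν) × Vr ν) := ⟨(hnew q0 hq0).choose⟩
  choose! f hf1 hf2 hf3 using hnew
  have h5 := fiber_bound E f W hf1 (X ^ (ε / 2)) (by
    intro t ht
    refine h1 t ht mm hmm hmmX A B (Sum.elim z G) ?_ _ ?_ (hS.sub (Finset.filter_subset _ _))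
    · rintro (j | m)
      · exact (hz j).trans (pow_le_pow_right₀ hX1 (le_max_left _ _))
      · have h5 : ((|G m| : ℤ) : ℝ) ≤ ((⌊X ^ h⌋₊ : ℕ) : ℝ) := by exact_mod_cast hGH m
        rw [Int.cast_abs] at h5
        exact (h5.trans (Nat.floor_le (by positivity))).trans
          (pow_le_pow_right₀ hX1 (le_max_right _ _))
    · intro q hq
      rw [Finset.mem_filter] at hq
      obtain ⟨hq, hft⟩ := hq
      refine ⟨(hE q hq).1.mono hX1 (le_max_left _ _), ?_, ?_⟩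
      · have := hf2 q hq
        rw [hft] at this
        exact this
      · have := hf3 q hq
        rw [hft] at this
        exact this)
  calc (E.card : ℝ) ≤ W.card * X ^ (ε / 2) := h5
    _ ≤ X ^ (ε / 2) * X ^ (ε / 2) := by gcongr
    _ = X ^ ε := by
        rw [← Real.rpow_add hX0]
        ring_nf

end Pool.Agent.Y913.Zm
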