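import Pool.Agent.Y913.Zm.Quot
import Pool.Agent.Y913.Vm.Fer

/-!
The equation `A X + B Y = C Z` in products of small spread, all degrees.
-/

set_option autoImplicit false

namespace Pool.Agent.Y913.Zm

open Finset Filter Pool.Agent.Y913 Pool.Agent.Y913.Nb Pool.Agent.Y913.Vm Pool.Agent.Y913.Wm

/-- `X` is a product of powers of the integers `b, ..., b + S`, one of the exponents is `≥ R` -/
def Pw (S T R X : ℕ) : Prop :=
  ∃ (b : ℕ) (k : Fin (S + 1) → ℕ), 1 ≤ b ∧ b ≤ T ∧ X = ∏ t : Fin (S + 1), (b + (t : ℕ)) ^ k t ∧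
    ∃ t, R ≤ k t

/-- the solutions -/
def Sw (S Q T R A B C : ℕ) (w : ℕ × ℕ × ℕ) : Prop :=
  A * w.1 + B * w.2.1 = C * w.2.2 ∧
    Nat.gcd w.1 w.2.1 ≤ Q * ∏ p ∈ (Nat.gcd w.1 w.2.1).primeFactors, p ∧
    Pw S T R w.1 ∧ Pw S T R w.2.1 ∧ Pw S T R w.2.2

/-- the coprime pair of a solution -/
def Cp (A B : ℕ) (w : ℕ × ℕ × ℕ) : ℕ × ℕ :=
  (A * w.1 / Nat.gcd (A * w.1) (B * w.2.1), B * w.2.1 / Nat.gcd (A * w.1) (B * w.2.1))

lemma rad_fact {g Q : ℕ} (hg : 0 < g) (h : g ≤ Q * ∏ p ∈ g.primeFactors, p) (p : ℕ) :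
    g.factorization p ≤ Q + 1 := by
  by_cases hp : p ∈ g.primeFactors
  · have h1 : ∏ l ∈ g.primeFactors, l ^ g.factorization l = g := by
      have := Nat.prod_factorization_pow_eq_self hg.ne'
      exact this
    have h2 : ∏ l ∈ g.primeFactors, l ^ g.factorization l =
        (∏ l ∈ g.primeFactors, l) * ∏ l ∈ g.primeFactors, l ^ (g.factorization l - 1) := by
      rw [← Finset.prod_mul_distrib]
      apply Finset.prod_congr rfl
      intro l hl
      have h3 : 0 < g.factorization l :=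
        (Nat.prime_of_mem_primeFactors hl).factorization_pos_of_dvd hg.ne'
          (Nat.dvd_of_mem_primeFactors hl)
      rw [← pow_succ']
      congr 1
      omega
    have hr : 0 < ∏ l ∈ g.primeFactors, l :=
      Finset.prod_pos (fun l hl => (Nat.prime_of_mem_primeFactors hl).pos)
    have h3 : ∏ l ∈ g.primeFactors, l ^ (g.factorization l - 1) ≤ Q := by
      rw [← h1, h2] at h
      have h4 : (∏ l ∈ g.primeFactors, l) * ∏ l ∈ g.primeFactors, l ^ (g.factorization l - 1) ≤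
          (∏ l ∈ g.primeFactors, l) * Q := by
        have h5 : g.primeFactors = ((∏ l ∈ g.primeFactors, l) *
            ∏ l ∈ g.primeFactors, l ^ (g.factorization l - 1)).primeFactors := by
          rw [← h2, h1]
        rw [← h5] at h
        linarith
      exact Nat.le_of_mul_le_mul_left h4 hr
    have h4 : p ^ (g.factorization p - 1) ≤ Q := by
      refine le_trans ?_ h3
      exact Finset.single_le_prod' (f := fun l => l ^ (g.factorization l - 1))
        (fun l hl => Nat.one_le_pow _ _ (Nat.prime_of_mem_primeFactors hl).pos) hp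
    have h5 : g.factorization p - 1 < p ^ (g.factorization p - 1) :=
      Nat.lt_pow_self (Nat.prime_of_mem_primeFactors hp).one_lt
    omega
  · rw [← Nat.support_factorization, Finsupp.notMem_support_iff] at hp
    omega

lemma gcd_dvd (A B X Y : ℕ) : Nat.gcd (A * X) (B * Y) ∣ A * B * Nat.gcd X Y := by
  rw [← Nat.gcd_mul_left]
  apply Nat.dvd_gcd
  · exact (Nat.gcd_dvd_left _ _).trans ⟨B, by ring⟩
  · exact (Nat.gcd_dvd_right _ _).trans ⟨A, by ring⟩

lemma Pw.pos {S T R X : ℕ} (h : Pw S T R X) : 0 < X := by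
  obtain ⟨b, k, hb, hbT, hX, -⟩ := h
  rw [hX]
  exact Finset.prod_pos (fun t _ => pow_pos (by omega) _)

lemma Pw.nb {S T R X : ℕ} {Y : ℝ} (hY : (T : ℝ) + S ≤ Y) (h : Pw S T R X) : NB (S + 1) Y X := by
  obtain ⟨b, k, hb, hbT, hX, -⟩ := h
  refine ⟨fun t => b + (t : ℕ), k, fun t => ⟨Nat.add_pos_left hb _, ?_⟩, hX⟩
  refine le_trans ?_ hY
  have h1 : b + (t : ℕ) ≤ T + S := by omega
  exact_mod_cast h1

lemma Pw.rad {S T R X g : ℕ} {Y : ℝ} (hY : (T : ℝ) + S ≤ Y) (h : Pw S T R X) (hg : g ∣ X) :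
    ((∏ p ∈ g.primeFactors, p : ℕ) : ℝ) ≤ Y ^ (S + 1) := by
  obtain ⟨b, k, hb, hbT, hX, -⟩ := h
  have hpos : 0 < ∏ t : Fin (S + 1), (b + (t : ℕ)) := Finset.prod_pos (fun t _ => by omega)
  have h1 : ∏ p ∈ g.primeFactors, p ∣ ∏ t : Fin (S + 1), (b + (t : ℕ)) := by
    refine (Finset.prod_dvd_prod_of_subset _ (∏ t : Fin (S + 1), (b + (t : ℕ))).primeFactors _
      ?_).trans (Nat.prod_primeFactors_dvd _)
    intro l hl
    have hlp := Nat.prime_of_mem_primeFactors hl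
    have hld := (Nat.dvd_of_mem_primeFactors hl).trans hg
    rw [Nat.mem_primeFactors]
    refine ⟨hlp, ?_, hpos.ne'⟩
    rw [hX, hlp.prime.dvd_finset_prod_iff] at hld
    obtain ⟨t, ht, hl3⟩ := hld
    exact (hlp.dvd_of_dvd_pow hl3).trans (Finset.dvd_prod_of_mem (fun t : Fin (S + 1) => b + (t : ℕ)) ht)
  calc ((∏ p ∈ g.primeFactors, p : ℕ) : ℝ) ≤ ((∏ t : Fin (S + 1), (b + (t : ℕ)) : ℕ) : ℝ) := by
        exact_mod_cast Nat.le_of_dvd hpos h1
    _ = ∏ t : Fin (S + 1), ((b + (t : ℕ) : ℕ) : ℝ) := by rw [Nat.cast_prod]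
    _ ≤ ∏ _t : Fin (S + 1), Y := by
        apply Finset.prod_le_prod (fun t _ => by positivity)
        intro t _
        refine le_trans ?_ hY
        have h2 : b + (t : ℕ) ≤ T + S := by omega
        exact_mod_cast h2
    _ = Y ^ (S + 1) := by rw [Finset.prod_const, Finset.card_univ, Fintype.card_fin]

/-- the small products of high degree -/
lemma Pw.mem {S T R X : ℕ} {Y K : ℝ} (hR : 1 ≤ R) (hY : 1 ≤ Y) (hK : 0 ≤ K) (h : Pw S T R X)
    (hX : (X : ℝ) < Y ^ K) :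
    X ∈ Vs (S + 1) ⌊2 * (K * Real.log Y)⌋₊ ⌊Y ^ (K / R) + S⌋₊ ⌊Y ^ (K / R)⌋₊ := by
  have hX0 := h.pos
  obtain ⟨b, k, hb, hbT, hXe, t0, ht0⟩ := h
  have hY0 : 0 < Y := by linarith
  have hsplit : X = (∏ t : Fin (S + 1), (b + (t : ℕ)) ^ (if t = t0 then 0 else k t)) *
      (b + (t0 : ℕ)) ^ k t0 := by
    rw [hXe, ← Finset.prod_erase_mul Finset.univ _ (Finset.mem_univ t0)]
    congr 1
    rw [← Finset.prod_erase_mul Finset.univ (fun t : Fin (S + 1) =>
      (b + (t : ℕ)) ^ (if t = t0 then 0 else k t)) (Finset.mem_univ t0)]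
    simp only [if_true, pow_zero, mul_one]
    apply Finset.prod_congr rfl
    intro t ht
    rw [if_neg (Finset.ne_of_mem_erase ht)]
  have hbY : (b : ℝ) ≤ Y ^ (K / R) := by
    have h1 : (b : ℝ) ^ R ≤ Y ^ K := by
      have h2 : b ^ R ≤ X := by
        have h3 : b ^ R ≤ (b + (t0 : ℕ)) ^ k t0 :=
          (Nat.pow_le_pow_left (by omega) R).trans (Nat.pow_le_pow_right (by omega) ht0)
        refine h3.trans ?_
        rw [hsplit]
        exact Nat.le_mul_of_pos_left _ (Finset.prod_pos (fun t _ => pow_pos (by omega) _))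
      have h3 : ((b ^ R : ℕ) : ℝ) ≤ (X : ℝ) := by exact_mod_cast h2
      push_cast at h3
      linarith
    have h2 : (b : ℝ) = ((b : ℝ) ^ R) ^ ((1 : ℝ) / R) := by
      rw [← Real.rpow_natCast, ← Real.rpow_mul (by positivity)]
      rw [mul_one_div_cancel (by positivity), Real.rpow_one]
    rw [h2]
    calc ((b : ℝ) ^ R) ^ ((1 : ℝ) / R) ≤ (Y ^ K) ^ ((1 : ℝ) / R) :=
          Real.rpow_le_rpow (by positivity) h1 (by positivity)
      _ = Y ^ (K / R) := by
          rw [← Real.rpow_mul hY0.le]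
          ring_nf
  apply mem_Vs hR hY hK hX0 hsplit _ ht0 hX
  refine ⟨fun t => b + (t : ℕ), fun t => if t = t0 then 0 else k t,
    fun t => ⟨Nat.add_pos_left hb _, ?_⟩, rfl⟩
  push_cast
  have h1 : ((t : ℕ) : ℝ) ≤ S := by exact_mod_cast (by omega : (t : ℕ) ≤ S)
  linarith

end Pool.Agent.Y913.Zm
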